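import Pool.Agent.P.MP_7c5a52_nt.Ord

/-! Integral closures of polynomial rings in two variables. -/

namespace Pool.Agent.P.MP_7c5a52_nt

open scoped IntermediateField.algebraAdjoinAdjoin

variable {K Ω : Type} [Field K] [Field Ω] [Algebra K Ω]

theorem integral_iff {A : Subalgebra K Ω} {B : Subring Ω} (hAB : ∀ z ∈ A, z ∈ B)
    (hB : ∀ z ∈ B, IsIntegral A z) {z : Ω} : IsIntegral B z ↔ IsIntegral A z := by
  let : Algebra A B := (A.val.toRingHom.codRestrict B fun z => hAB z z.2).toAlgebra
  have : IsScalarTower A B Ω := .of_algebraMap_eq fun _ => rfl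
  have : Algebra.IsIntegral A B := ⟨fun b =>
    (isIntegral_algHom_iff (IsScalarTower.toAlgHom A B Ω) Subtype.val_injective).1 (hB b b.2)⟩
  exact ⟨fun h => isIntegral_trans z h, fun h => h.tower_top⟩

theorem chart_nrm (v : Fin 2 → Ω) (hv : AlgebraicIndependent K v)
    (hsep : Algebra.IsSeparable (IntermediateField.adjoin K (Set.range v)) Ω)
    (L : Subfield Ω) (hKL : ∀ a : K, algebraMap K Ω a ∈ L) (hvL : ∀ i, v i ∈ L) (s t : Ω)
    (hL : ∀ z ∈ L, z ∈ IntermediateField.adjoin K {s, t}) (R : Subring Ω)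
    (hR : ∀ z, z ∈ R ↔ IsIntegral (Algebra.adjoin K (Set.range v)) z ∧ z ∈ L) :
    Nrm R L ∧ ∀ P : Ideal R, P.IsPrime → P.height = 1 → ∀ x y : R, (x : Ω) = v 0 →
      (y : Ω) = v 1 → x ∈ P → y ∈ P → False := by
  set A := Algebra.adjoin K (Set.range v) with hA
  set N := IntermediateField.adjoin K (Set.range v) with hN
  have hNL : ∀ z ∈ N, z ∈ L := fun z hz =>
    (IntermediateField.adjoin_le_iff (T := L.toIntermediateField hKL)).2
      (by rintro _ ⟨i, rfl⟩; exact hvL i) hz
  have hAR : ∀ z : A, (z : Ω) ∈ R := fun z => (hR z).2 ⟨isIntegral_algebraMap (x := z),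
    hNL _ (IntermediateField.algebra_adjoin_le_adjoin K _ z.2)⟩
  let e := hv.aevalEquiv
  have : IsNoetherianRing A := isNoetherianRing_of_ringEquiv _ e.toRingEquiv
  have : IsIntegrallyClosed A := IsIntegrallyClosed.of_equiv e.toRingEquiv
  let L' : IntermediateField N Ω := L.toIntermediateField fun z => hNL z z.2
  have hfin : FiniteDimensional N (IntermediateField.adjoin N {s, t}) :=
    IntermediateField.finiteDimensional_adjoin fun x _ => Algebra.IsSeparable.isIntegral N x
  have hle : L' ≤ IntermediateField.adjoin N {s, t} := fun z hz =>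
    (IntermediateField.adjoin_le_iff
      (T := (IntermediateField.adjoin N {s, t}).restrictScalars K)).2
      (IntermediateField.subset_adjoin N _) (hL z hz)
  have : FiniteDimensional N L' := Module.Finite.of_injective
    (IntermediateField.inclusion hle).toLinearMap (IntermediateField.inclusion_injective hle)
  let : Algebra A R := (A.val.toRingHom.codRestrict R hAR).toAlgebra
  let : Algebra R L' := (R.subtype.codRestrict L'.toSubring fun z => ((hR z).1 z.2).2).toAlgebra
  have : IsScalarTower A R L' := .of_algebraMap_eq fun _ => rfl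
  have : IsScalarTower A R Ω := .of_algebraMap_eq fun _ => rfl
  have : IsScalarTower A N L' := .of_algebraMap_eq fun _ => rfl
  have hint : ∀ x : L', IsIntegral A x ↔ IsIntegral A (x : Ω) := fun x =>
    (isIntegral_algHom_iff (L'.val.restrictScalars A) Subtype.val_injective).symm
  have : IsIntegralClosure R A L' :=
    { algebraMap_injective := fun a b e => Subtype.ext (congrArg (fun z : L' => (z : Ω)) e)
      isIntegral_iff := fun {x} => ⟨fun h => ⟨⟨x, (hR x).2 ⟨(hint x).1 h, x.2⟩⟩, rfl⟩, by
        rintro ⟨y, rfl⟩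
        exact (hint _).2 ((hR y).1 y.2).1⟩ }
  have : Algebra.IsIntegral A R := ⟨fun b =>
    (isIntegral_algHom_iff (IsScalarTower.toAlgHom A R Ω) Subtype.val_injective).1
      ((hR b).1 b.2).1⟩
  have hfr : IsFractionRing R L' := IsIntegralClosure.isFractionRing_of_finite_extension A N L' R
  refine ⟨⟨IsIntegralClosure.isNoetherianRing A N L' R, fun z hz => ((hR z).1 hz).2,
    fun z hz => ?_, fun z hz h => (hR z).2 ⟨isIntegral_trans z h, hz⟩⟩, ?_⟩
  · obtain ⟨a, b, hb, e⟩ := IsFractionRing.div_surjective (A := R) (⟨z, hz⟩ : L')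
    exact ⟨a, b, nonZeroDivisors.ne_zero hb, (congrArg (fun z : L' => (z : Ω)) e).symm⟩
  intro P hP h1 x y hx hy hxP hyP
  have : FaithfulSMul A R := (faithfulSMul_iff_algebraMap_injective A R).2 fun a b e =>
    Subtype.ext (congrArg (fun z : R => (z : Ω)) e)
  have hex : algebraMap A R (e (MvPolynomial.X 0)) = x := Subtype.ext (by
    rw [hx]; exact MvPolynomial.aeval_X v 0)
  have hey : algebraMap A R (e (MvPolynomial.X 1)) = y := Subtype.ext (by
    rw [hy]; exact MvPolynomial.aeval_X v 1)
  have hpr : Prime (e (MvPolynomial.X 0)) := (MulEquiv.prime_iff e).2 MvPolynomial.X_prime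
  have := (Ideal.span_singleton_prime hpr.ne_zero).2 hpr
  have hlt : Ideal.span {e (MvPolynomial.X 0)} < P.under A := by
    refine lt_of_le_of_ne ((Ideal.span_singleton_le_iff_mem _).2 ?_) fun h => ?_
    · rw [Ideal.mem_under, hex]; exact hxP
    · have : e (MvPolynomial.X 1) ∈ Ideal.span {e (MvPolynomial.X 0)} := by
        rw [h, Ideal.mem_under, hey]; exact hyP
      rw [Ideal.mem_span_singleton, map_dvd_iff e, MvPolynomial.X_dvd_X] at this
      exact absurd this (by decide)
  obtain ⟨P1, hP1, _, hov⟩ := Ideal.exists_ideal_lt_liesOver_of_lt P hlt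
  have hx1 : x ∈ P1 := by
    rw [← hex, ← Ideal.mem_under, ← hov.over]
    exact Ideal.mem_span_singleton_self _
  have h2 := Ideal.height_add_one_le_of_lt_of_isPrime hP1
  have h3 : P1.height = 0 := by
    rw [h1] at h2
    by_contra h0
    have := Order.one_le_iff_ne_zero.2 h0
    exact absurd ((add_le_add_left this 1).trans h2) (by decide)
  rw [Ideal.height_eq_zero_iff_eq_bot.1 h3, Ideal.mem_bot, ← hex,
    map_eq_zero_iff _ (FaithfulSMul.algebraMap_injective A R)] at hx1
  exact hpr.ne_zero hx1

/-- Everything is separable over `N` as soon as the image of `E` is. -/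
theorem sep_of_gen {E : Type} [Field E] [Algebra E Ω] [Algebra.IsSeparable E Ω] (j : Fin 2 → Ω)
    (hE : ∀ e : E, algebraMap E Ω e ∈ IntermediateField.adjoin K (Set.range j))
    (N : IntermediateField K Ω) (hj : ∀ i, IsSeparable N (j i)) : Algebra.IsSeparable N Ω := by
  let N' := separableClosure N Ω
  have h : ∀ e : E, algebraMap E Ω e ∈ N' := fun e =>
    (IntermediateField.adjoin_le_iff (T := N'.restrictScalars K)).2
      (by rintro _ ⟨i, rfl⟩; exact hj i) (hE e)
  let : Algebra E N' := ((algebraMap E Ω).codRestrict N'.toSubring h).toAlgebra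
  have : IsScalarTower E N' Ω := .of_algebraMap_eq fun _ => rfl
  have : Algebra.IsSeparable N' Ω := Algebra.isSeparable_tower_top_of_isSeparable E N' Ω
  exact Algebra.IsSeparable.trans N N' Ω

theorem indep_of_sep {j v : Fin 2 → Ω} (hj : AlgebraicIndependent K j)
    (hsep : Algebra.IsSeparable (IntermediateField.adjoin K (Set.range v)) Ω) :
    AlgebraicIndependent K v := by
  have : Algebra.IsAlgebraic (Algebra.adjoin K (Set.range v)) Ω :=
    IntermediateField.isAlgebraic_adjoin_iff_top.1 inferInstance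
  exact (Algebra.IsAlgebraic.isTranscendenceBasis_of_lift_le_trdeg_of_finite K v
    hj.lift_cardinalMk_le_trdeg).1

theorem sep_of_pow_mem {N : IntermediateField K Ω} {z : Ω} {n : ℕ} (hn : (n : Ω) ≠ 0)
    (hz : z ≠ 0) (h : z ^ n ∈ N) : IsSeparable N z := by
  have hn' : (n : N) ≠ 0 := fun e => hn (by simpa using congrArg (fun z : N => (z : Ω)) e)
  have h0 : (⟨_, h⟩ : N) ≠ 0 := fun e => pow_ne_zero n hz (congrArg (fun z : N => (z : Ω)) e)
  exact (Polynomial.separable_X_pow_sub_C _ hn' h0).of_dvd (minpoly.dvd N z (by simp))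

end Pool.Agent.P.MP_7c5a52_nt
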