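import Pool.Agent.P.MP_7c5a52_nt.Chart

/-! The linear system satisfied by the coefficients of a rank three module. -/

namespace Pool.Agent.P.MP_7c5a52_nt

section
variable {S S' : Type} [CommRing S] [CommRing S'] (q : ℕ)

/-- The determinant of the system. -/
def dl (s t : S) : S :=
  t ^ q * (t ^ q ^ 2 * t ^ q ^ 3 - s ^ q ^ 3) - s ^ q ^ 2 * (t ^ q ^ 3 - s ^ q ^ 3 * s ^ q) +
    (1 - t ^ q ^ 2 * s ^ q)

/-- The Cramer numerators. -/
def num (a0 a1 a2 s t : S) : Fin 3 → S :=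
  ![a0 * (t ^ q ^ 2 * t ^ q ^ 3 - s ^ q ^ 3) - s ^ q ^ 2 * (a1 * s * t ^ q ^ 3 - s ^ q ^ 3 * (a2 * t))
      + (a1 * s - t ^ q ^ 2 * (a2 * t)),
    t ^ q * (a1 * s * t ^ q ^ 3 - s ^ q ^ 3 * (a2 * t)) - a0 * (t ^ q ^ 3 - s ^ q ^ 3 * s ^ q)
      + (a2 * t - a1 * s * s ^ q),
    t ^ q * (t ^ q ^ 2 * (a2 * t) - a1 * s) - s ^ q ^ 2 * (a2 * t - a1 * s * s ^ q)
      + a0 * (1 - t ^ q ^ 2 * s ^ q)]

theorem map_dl (f : S →+* S') (s t : S) : f (dl q s t) = dl q (f s) (f t) := by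
  simp [dl]

theorem map_num (f : S →+* S') (a0 a1 a2 s t : S) (l : Fin 3) :
    f (num q a0 a1 a2 s t l) = num q (f a0) (f a1) (f a2) (f s) (f t) l := by
  fin_cases l <;> simp [num]

variable {q}

theorem dl_zero (hq : q ≠ 0) : dl q (0 : S) 0 = 1 := by
  simp [dl, hq]

theorem num_zero (hq : q ≠ 0) (a0 a1 a2 : S) : num q a0 a1 a2 0 0 = ![0, 0, a0] := by
  ext l
  fin_cases l <;> simp [num, hq]

end

variable {Ω : Type} [Field Ω]

/-- The equations linking the coefficients `g` with the eigen-coordinates of the level. -/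
structure Eqs (q : ℕ) (g : Fin 3 → Ω) (a0 a1 a2 x0 x1 x2 : Ω) : Prop where
  e0 : g 0 * x2 ^ q + g 1 * x1 ^ q ^ 2 + g 2 * x0 ^ q ^ 3 = a0 * x0
  e1 : g 0 * x0 ^ q + g 1 * x2 ^ q ^ 2 + g 2 * x1 ^ q ^ 3 = a1 * x1
  e2 : g 0 * x1 ^ q + g 1 * x0 ^ q ^ 2 + g 2 * x2 ^ q ^ 3 = a2 * x2
  moore : ∀ u v w : Ω, u * x2 ^ q + v * x1 ^ q ^ 2 + w * x0 ^ q ^ 3 = 0 →
    u * x0 ^ q + v * x2 ^ q ^ 2 + w * x1 ^ q ^ 3 = 0 →
    u * x1 ^ q + v * x0 ^ q ^ 2 + w * x2 ^ q ^ 3 = 0 → u = 0 ∧ v = 0 ∧ w = 0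

/-- Coefficients of the module rescaled by `x`. -/
def resc (q : ℕ) (g : Fin 3 → Ω) (x : Ω) (l : Fin 3) : Ω := g l * x ^ (q ^ (l.1 + 1) - 1)

variable {q : ℕ} {g : Fin 3 → Ω} {a0 a1 a2 x0 x1 x2 : Ω}

theorem resc_eq (hq : q ≠ 0) {x : Ω} (hx : x ≠ 0) (l : Fin 3) :
    resc q g x l = g l * x ^ q ^ (l.1 + 1) / x := by
  rw [resc, mul_div_assoc, pow_sub₀ _ hx (Nat.one_le_iff_ne_zero.2 (pow_ne_zero _ hq)), pow_one,
    div_eq_mul_inv]

theorem Eqs.dl_ne (h : Eqs q g a0 a1 a2 x0 x1 x2) (h0 : x0 ≠ 0) :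
    dl q (x1 / x0) (x2 / x0) ≠ 0 := by
  intro hd
  set s := x1 / x0 with hs
  set t := x2 / x0 with ht
  have : (!![t ^ q, s ^ q ^ 2, 1; 1, t ^ q ^ 2, s ^ q ^ 3; s ^ q, 1, t ^ q ^ 3] :
      Matrix (Fin 3) (Fin 3) Ω).det = 0 := by
    rw [Matrix.det_fin_three, ← hd]
    simp [dl]
    ring
  obtain ⟨v, hv, e⟩ := Matrix.exists_mulVec_eq_zero_iff.2 this
  have f0 := congrFun e 0
  have f1 := congrFun e 1
  have f2 := congrFun e 2
  simp [Matrix.mulVec, dotProduct, Fin.sum_univ_three, hs, ht, div_pow] at f0 f1 f2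
  have p1 := pow_ne_zero q h0
  have p2 := pow_ne_zero (q ^ 2) h0
  have p3 := pow_ne_zero (q ^ 3) h0
  obtain ⟨k0, k1, k2⟩ := h.moore (v 0 / x0 ^ q) (v 1 / x0 ^ q ^ 2) (v 2 / x0 ^ q ^ 3)
    (by rw [← f0]; field_simp) (by rw [← f1]; field_simp) (by rw [← f2]; field_simp)
  simp only [div_eq_zero_iff, p1, p2, p3, or_false] at k0 k1 k2
  exact hv (by ext i; fin_cases i <;> simpa)

theorem Eqs.cramer (h : Eqs q g a0 a1 a2 x0 x1 x2) (hq : q ≠ 0) (h0 : x0 ≠ 0) (l : Fin 3) :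
    resc q g x0 l * dl q (x1 / x0) (x2 / x0) = num q a0 a1 a2 (x1 / x0) (x2 / x0) l := by
  have p1 := pow_ne_zero q h0
  have p2 := pow_ne_zero (q ^ 2) h0
  have p3 := pow_ne_zero (q ^ 3) h0
  have r0 : resc q g x0 0 = g 0 * x0 ^ q / x0 := by simpa using resc_eq hq h0 0
  have r1 : resc q g x0 1 = g 1 * x0 ^ q ^ 2 / x0 := by simpa using resc_eq hq h0 1
  have r2 : resc q g x0 2 = g 2 * x0 ^ q ^ 3 / x0 := by simpa using resc_eq hq h0 2
  have f0 : (x2 / x0) ^ q * resc q g x0 0 + (x1 / x0) ^ q ^ 2 * resc q g x0 1 + resc q g x0 2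
      = a0 := by
    rw [r0, r1, r2, div_pow, div_pow]
    field_simp
    linear_combination h.e0
  have f1 : resc q g x0 0 + (x2 / x0) ^ q ^ 2 * resc q g x0 1 + (x1 / x0) ^ q ^ 3 * resc q g x0 2
      = a1 * (x1 / x0) := by
    rw [r0, r1, r2, div_pow, div_pow]
    field_simp
    linear_combination h.e1
  have f2 : (x1 / x0) ^ q * resc q g x0 0 + resc q g x0 1 + (x2 / x0) ^ q ^ 3 * resc q g x0 2
      = a2 * (x2 / x0) := by
    rw [r0, r1, r2, div_pow, div_pow]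
    field_simp
    linear_combination h.e2
  generalize x1 / x0 = s at *
  generalize x2 / x0 = t at *
  fin_cases l
  · simp only [num, dl, Fin.zero_eta, Matrix.cons_val_zero, ← f1, ← f2]
    rw [← f0]
    ring
  · simp only [num, dl, Fin.mk_one, Matrix.cons_val_one, Matrix.cons_val_zero, ← f1, ← f2]
    rw [← f0]
    ring
  · simp only [num, dl, Fin.reduceFinMk, Matrix.cons_val, ← f1, ← f2]
    rw [← f0]
    ring

/-- If `x0` dominates then the module reduces to the elliptic point. -/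
theorem Eqs.ell (h : Eqs q g a0 a1 a2 x0 x1 x2) (hq : q ≠ 0) (h0 : x0 ≠ 0)
    (W : ValuationSubring Ω) (w0 : W.valuation a0 = 1) (w1 : a1 ∈ W) (w2 : a2 ∈ W)
    (hs : W.valuation (x1 / x0) < 1) (ht : W.valuation (x2 / x0) < 1) :
    W.valuation (resc q g x0 0) < 1 ∧ W.valuation (resc q g x0 1) < 1 ∧
      W.valuation (resc q g x0 2) = 1 := by
  let s : W := ⟨_, (W.valuation_le_one_iff _).1 hs.le⟩
  let t : W := ⟨_, (W.valuation_le_one_iff _).1 ht.le⟩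
  let b0 : W := ⟨_, (W.valuation_le_one_iff _).1 w0.le⟩
  let b1 : W := ⟨_, w1⟩
  let b2 : W := ⟨_, w2⟩
  let ρ := IsLocalRing.residue W
  have lt : ∀ a : W, ρ a = 0 ↔ W.valuation a < 1 := fun a => by
    rw [IsLocalRing.residue_eq_zero_iff, W.valuation_lt_one_iff]
  have eq : ∀ a : W, ρ a ≠ 0 ↔ W.valuation a = 1 := fun a => by
    rw [IsLocalRing.residue_ne_zero_iff_isUnit, W.valuation_eq_one_iff]
  have hd : W.valuation (dl q (x1 / x0) (x2 / x0)) = 1 := by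
    have := (eq (dl q s t)).1 (by
      rw [map_dl, (lt s).2 hs, (lt t).2 ht, dl_zero hq]; exact one_ne_zero)
    rwa [show ((dl q s t : W) : Ω) = _ from map_dl q W.subtype s t] at this
  have hn : ∀ l, W.valuation (resc q g x0 l) = W.valuation (num q b0 b1 b2 s t l : W) := fun l => by
    rw [show ((num q b0 b1 b2 s t l : W) : Ω) = _ from map_num q W.subtype b0 b1 b2 s t l]
    have := congrArg W.valuation (h.cramer hq h0 l)
    rwa [map_mul, hd, mul_one] at this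
  have hr : ∀ l, ρ (num q b0 b1 b2 s t l) = ![0, 0, ρ b0] l := fun l => by
    rw [map_num, (lt s).2 hs, (lt t).2 ht, num_zero hq]
  simp only [hn]
  exact ⟨(lt _).1 (hr 0), (lt _).1 (hr 1), (eq _).1 (by rw [hr]; exact (eq b0).2 w0)⟩

/-- Weight zero monomials do not see the rescaling. -/
theorem mono_resc {x : Ω} (hx : x ≠ 0) (a : Fin 3 → ℕ) (m : ℕ) (i : Fin 3)
    (h : ∑ l, a l * (q ^ (l.1 + 1) - 1) = m * (q ^ (i.1 + 1) - 1)) :
    (∏ l, g l ^ a l) / g i ^ m = (∏ l, resc q g x l ^ a l) / resc q g x i ^ m := by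
  simp only [resc, mul_pow, Finset.prod_mul_distrib, ← pow_mul, Finset.prod_pow_eq_pow_sum]
  rw [show ∑ l, (q ^ (l.1 + 1) - 1) * a l = (q ^ (i.1 + 1) - 1) * m by
    simpa only [mul_comm] using h, mul_div_mul_right _ _ (pow_ne_zero _ hx)]

end Pool.Agent.P.MP_7c5a52_nt
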