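import Mathlib

/-!
Weil divisor class group of the Satake compactification `X_0^r(n)` over `F^sep`, rank `r = s + 1`,
`A = k[T]`, `k` the field with `q` elements, `F = k(T)`.

`X_0^r(n)` is normal, projective and finite over `X^r(1) = Proj F[g_1, ..., g_r]`
(`deg g_i = q^i - 1`), so it is the normalisation of that weighted projective space in the function
field of `Y_0^r(n)`, the coarse moduli space of pairs (rank `r` Drinfeld module, cyclic submodule
isomorphic to `A/n`).  That is the model used here.
-/

open Polynomial

namespace Pool.Agent.P.MP_7c5a52_nt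

section General

variable {K : Type} [Field K]

/-- Localisations of `R` at its primes of height one, as subrings of the ambient field. -/
def htOneLocs (R : Subring K) : Set (Subring K) :=
  {V | ∃ P : Ideal R, P.IsPrime ∧ P.height = 1 ∧
    ∀ z, z ∈ V ↔ ∃ x y : R, y ∉ P ∧ z = (x : K) / y}

/-- `f` has order `n` in the discrete valuation ring `V`. -/
def IsOrd (V : Subring K) (f : K) (n : ℤ) : Prop :=
  ∃ π : V, Irreducible π ∧ ∃ u : Vˣ, f = ((u : V) : K) * (π : K) ^ n

/-- Weil divisors: the free abelian group on the set `S` of prime divisors. -/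
noncomputable abbrev WDiv (S : Set (Subring K)) : Submodule ℤ (Subring K →₀ ℤ) :=
  Finsupp.supported ℤ ℤ S

variable (L : Subfield K) (S : Set (Subring K))

/-- Principal divisors, `L` being the function field. -/
noncomputable def prin : Submodule ℤ (WDiv S) :=
  Submodule.span ℤ {D | ∃ f ∈ L, f ≠ 0 ∧ ∀ V ∈ S, IsOrd V f (D.1 V)}

/-- The Weil divisor class group. -/
abbrev ClassGroupOf : Type := WDiv S ⧸ prin L S

/-- The class of a divisor. -/
noncomputable def cls (D : WDiv S) : ClassGroupOf L S := Submodule.Quotient.mk D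

/-- The classes `[V]` of the prime divisors `V` in `Z`. -/
def primeClasses (Z : Set (Subring K)) : Set (ClassGroupOf L S) :=
  {x | ∃ V ∈ Z, ∃ D : WDiv S, D.1 = Finsupp.single V 1 ∧ cls L S D = x}

variable {L S}

/-- `σ` fixes the class `x`; it moves divisors by moving their local rings. -/
def Fixes (σ : K →+* K) (x : ClassGroupOf L S) : Prop :=
  ∃ D D' : WDiv S, cls L S D = x ∧ cls L S D' = x ∧ D'.1 = D.1.mapDomain (Subring.map σ)

/-- The subgroup generated by differences of elements of `A`. -/
def diffGroup {G : Type} [AddCommGroup G] (A : Set G) : AddSubgroup G :=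
  AddSubgroup.closure {z | ∃ x ∈ A, ∃ y ∈ A, z = x - y}

end General

/- `k` is the field with `q` elements, `F = k(T)`, `E = F(j_2, ..., j_r)` is the function field of
`X^r(1)` over `F`, where `j_i = g_i / g_1 ^ ((q^i - 1)/(q - 1))`, and `Ω` is a separable closure
of `E`.  The family `j` lists `j_2, ..., j_r`. -/
variable (k : Type) (F : Type) {E : Type} (Ω : Type) [Field k] [Fintype k] [Field F] [Field E]
  [Field Ω] [Algebra k Ω] [Algebra F Ω] [Algebra E Ω] {s : ℕ}

/-- The separable closure `F^sep` of `F` in `Ω`. -/
noncomputable abbrev Fsep : IntermediateField F Ω := separableClosure F Ω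

/-- Coefficients `g_1 = 1, g_2 = j_2, ..., g_r = j_r` of the generic Drinfeld module
(`g Ω j i` is `g_(i+1)`). -/
def g (j : Fin s → E) : Fin (s + 1) → Ω := Fin.cons 1 fun i => algebraMap E Ω (j i)

/-- The ring of the chart `g_(i+1) ≠ 0` of the weighted projective space `X^r(1)` over `F^sep`:
generated by `F^sep` and the weight zero monomials with denominator a power of `g_(i+1)`. -/
noncomputable def chartBase (j : Fin s → E) (i : Fin (s + 1)) : Subring Ω :=
  Subring.closure ((Fsep F Ω : Set Ω) ∪
    {x | ∃ (a : Fin (s + 1) → ℕ) (m : ℕ),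
      ∑ l, a l * (Fintype.card k ^ (l.1 + 1) - 1) = m * (Fintype.card k ^ (i.1 + 1) - 1) ∧
      x = (∏ l, g Ω j l ^ a l) / g Ω j i ^ m})

variable {F} (T : F) (j : Fin s → E)

/-- `φ_T = T + g_1 τ + ... + g_r τ^r`, with `τ x = x^q`. -/
noncomputable def phiT : Module.End k Ω :=
  LinearMap.mulLeft k (algebraMap F Ω T) +
    ∑ i, LinearMap.mulLeft k (g Ω j i) *
      (FiniteField.frobeniusAlgHom k Ω).toLinearMap ^ (i.1 + 1)

variable {Ω}

/-- `c` has annihilator `n`, so it generates a submodule isomorphic to `A/n`. -/
def IsLevel (n : Ideal k[X]) (c : Ω) : Prop := ∀ a, aeval (phiT k Ω T j) a c = 0 ↔ a ∈ n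

/-- The Galois group of the function field over `F` of `X_0^r(n)`: the stabiliser of the cyclic
submodule generated by `c`. -/
noncomputable def gal (c : Ω) : Subgroup (Ω ≃ₐ[E] Ω) :=
  open Pointwise in
  MulAction.stabilizer _ (Set.range fun a : k[X] => aeval (phiT k Ω T j) a c)

/-- The function field of `X_0^r(n)` over `F^sep`. -/
noncomputable def funField (c : Ω) : IntermediateField (E) Ω :=
  IntermediateField.fixedField (gal k T j c ⊓ fixingSubgroup _ (Fsep F Ω : Set Ω))

/-- The ring of the chart `g_(i+1) ≠ 0` of `X_0^r(n)` over `F^sep`: integral closure of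
`chartBase` in the function field.  The last chart is `Y_0^r(n)`. -/
noncomputable def chart (c : Ω) (i : Fin (s + 1)) : Subring Ω :=
  (integralClosure (chartBase k F Ω j i) Ω).toSubring ⊓ (funField k T j c).toSubring

/-- Prime divisors, identified with their local rings: localisations of the chart rings at primes
of height one. -/
def primeDiv (c : Ω) : Set (Subring Ω) := {V | ∃ i, V ∈ htOneLocs (chart k T j c i)}

/-- Cusps: the prime divisors that are not points of `Y_0^r(n)`. -/
def cusps (c : Ω) : Set (Subring Ω) :=
  {V | V ∈ primeDiv k T j c ∧ ¬ chart k T j c (Fin.last s) ≤ V}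

/-- The Weil divisor class group of `X_0^r(n)` over `F^sep`. -/
abbrev Cl (c : Ω) : Type := ClassGroupOf (funField k T j c).toSubfield (primeDiv k T j c)

/-- The class `x` is fixed by `G_F`: each `ρ` in `G_F` acts through an extension `σ` that fixes
the function field over `F`. -/
def IsRational {c : Ω} (x : Cl k T j c) : Prop :=
  ∀ ρ : Fsep F Ω ≃ₐ[F] Fsep F Ω, ∃ σ ∈ gal k T j c, (∀ y : Fsep F Ω, σ y = ρ y) ∧
    Fixes (σ : Ω →+* Ω) x

/-- The classes of the cusps. -/
def cuspClasses (c : Ω) : Set (Cl k T j c) := primeClasses _ _ (cusps k T j c)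

/-- The cuspidal divisor group, generated by the differences of classes of cusps. -/
noncomputable def cuspGroup (c : Ω) : AddSubgroup (Cl k T j c) := diffGroup (cuspClasses k T j c)

end Pool.Agent.P.MP_7c5a52_nt
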