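import Pool.Agent.P.MP_7c5a52_nt.Coord

/-! Eigen-coordinates of a torsion point of cubic prime level. -/

open Polynomial

namespace Pool.Agent.P.MP_7c5a52_nt

variable {k Ω : Type} [Field k] [Fintype k] [Field Ω] [Algebra k Ω]

theorem q_ne : Fintype.card k ≠ 0 := Fintype.card_ne_zero

theorem add_q (x y : Ω) : (x + y) ^ Fintype.card k = x ^ Fintype.card k + y ^ Fintype.card k :=
  map_add (FiniteField.frobeniusAlgHom k Ω) x y

theorem aeval_q (θ : Ω) (a : k[X]) : aeval θ a ^ Fintype.card k = aeval (θ ^ Fintype.card k) a :=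
  (aeval_algHom_apply (FiniteField.frobeniusAlgHom k Ω) θ a).symm

theorem inj_q {x y : Ω} (h : x ^ Fintype.card k = y ^ Fintype.card k) : x = y :=
  (FiniteField.frobeniusAlgHom k Ω).toRingHom.injective h

theorem mem_of_pow_q {b : Ω} (h : b ^ Fintype.card k = b) : ∃ a : k, algebraMap k Ω a = b := by
  by_contra! hn
  have hq : 1 < Fintype.card k := Fintype.one_lt_card
  refine FiniteField.X_pow_card_sub_X_ne_zero Ω hq
    (eq_zero_of_natDegree_lt_card_of_eval_eq_zero _ (ι := Option k)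
      (f := fun o => o.elim b (algebraMap k Ω)) ?_ ?_ ?_)
  · rintro (_ | x) (_ | y) e
    · rfl
    · exact absurd e.symm (hn y)
    · exact absurd e (hn x)
    · exact congrArg some ((algebraMap k Ω).injective e)
  · rintro (_ | x)
    · simp [h]
    · simp [← map_pow, FiniteField.pow_card]
  · rw [FiniteField.X_pow_card_sub_X_natDegree_eq Ω hq, Fintype.card_option]
    exact Nat.lt_succ_self _

section
variable {p : k[X]} (hp : Irreducible p) (hd : p.natDegree = 3)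
include hp hd

theorem card_root [Fintype (AdjoinRoot p)] : Fintype.card (AdjoinRoot p) = Fintype.card k ^ 3 := by
  rw [Module.card_eq_pow_finrank (K := k), (AdjoinRoot.powerBasis hp.ne_zero).finrank,
    AdjoinRoot.powerBasis_dim, hd]

omit hd in
theorem fin_root : Finite (AdjoinRoot p) :=
  have := (AdjoinRoot.powerBasis hp.ne_zero).finite
  Module.finite_of_finite k

theorem root_pow {θ : Ω} (h : aeval θ p = 0) : θ ^ Fintype.card k ^ 3 = θ := by
  have := Fact.mk hp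
  have := fin_root hp
  have := Fintype.ofFinite (AdjoinRoot p)
  have e := congrArg (AdjoinRoot.liftAlgHom p (Algebra.ofId k Ω) θ h)
    (FiniteField.pow_card (AdjoinRoot.root p))
  rwa [map_pow, AdjoinRoot.liftAlgHom_root, card_root hp hd] at e

theorem root_ne {θ : Ω} (h : aeval θ p = 0) : θ ^ Fintype.card k ≠ θ := by
  intro e
  obtain ⟨a, rfl⟩ := mem_of_pow_q e
  rw [aeval_algebraMap_apply_eq_algebraMap_eval, map_eq_zero] at h
  have := natDegree_eq_of_degree_eq_some (n := 1) (degree_eq_one_of_irreducible_of_root hp h)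
  omega

theorem exists_pow_ne {θ : Ω} (h : aeval θ p = 0) {m : ℕ} (h0 : 0 < m)
    (hm : m < Fintype.card k ^ 3 - 1) : ∃ a : k[X], aeval θ a ≠ 0 ∧ aeval θ a ^ m ≠ 1 := by
  classical
  have := Fact.mk hp
  have := fin_root hp
  have := Fintype.ofFinite (AdjoinRoot p)
  obtain ⟨γ, hγ⟩ := IsCyclic.exists_ofOrder_eq_natCard (α := (AdjoinRoot p)ˣ)
  rw [Nat.card_eq_fintype_card, Fintype.card_units, card_root hp hd] at hγ
  obtain ⟨a, ha⟩ := AdjoinRoot.mk_surjective (g := p) γ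
  let ψ := AdjoinRoot.liftAlgHom p (Algebra.ofId k Ω) θ h
  have e : aeval θ a = ψ γ := by rw [← ha]; rfl
  refine ⟨a, by rw [e]; exact (map_ne_zero ψ).2 γ.ne_zero, fun h1 => ?_⟩
  refine pow_ne_one_of_lt_orderOf h0.ne' (hγ ▸ hm) (Units.ext (ψ.toRingHom.injective ?_))
  rw [e, ← map_pow] at h1
  simpa using h1

end

/-- A frame: the roots of `p` and the eigen-coordinates of `c`. -/
structure Fr (φ : Module.End k Ω) (p : k[X]) (c : Ω) where
  θ0 : Ω
  θ1 : Ω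
  θ2 : Ω
  x0 : Ω
  x1 : Ω
  x2 : Ω
  h1 : θ1 = θ0 ^ Fintype.card k
  h2 : θ2 = θ1 ^ Fintype.card k
  h0 : θ0 = θ2 ^ Fintype.card k
  root : aeval θ0 p = 0
  ne : θ0 ≠ θ1
  rep : ∀ a : k[X], aeval φ a c = aeval θ0 a * x0 + aeval θ1 a * x1 + aeval θ2 a * x2

variable {φ : Module.End k Ω} {p : k[X]} {c : Ω}

/-- Cyclic shift of a frame. -/
def Fr.rot (f : Fr φ p c) : Fr φ p c where
  θ0 := f.θ1
  θ1 := f.θ2
  θ2 := f.θ0
  x0 := f.x1
  x1 := f.x2
  x2 := f.x0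
  h1 := f.h2
  h2 := f.h0
  h0 := f.h1
  root := by rw [f.h1, ← aeval_q, f.root, zero_pow q_ne]
  ne := fun e => f.ne (by rw [f.h0, ← e, ← f.h2, e])
  rep := fun a => by rw [f.rep]; ring

/-- The frame of a multiple of `c`. -/
noncomputable def Fr.mul (f : Fr φ p c) (b : k[X]) : Fr φ p (aeval φ b c) :=
  { f with
    x0 := aeval f.θ0 b * f.x0
    x1 := aeval f.θ1 b * f.x1
    x2 := aeval f.θ2 b * f.x2
    rep := fun a => by
      rw [← Module.End.mul_apply, ← map_mul, f.rep]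
      simp only [map_mul]
      ring }

theorem vdm {θ0 θ1 θ2 y0 y1 y2 : Ω} (n1 : θ0 ≠ θ1) (n2 : θ1 ≠ θ2) (n0 : θ2 ≠ θ0)
    (h : ∀ a : k[X], aeval θ0 a * y0 + aeval θ1 a * y1 + aeval θ2 a * y2 = 0) :
    y0 = 0 ∧ y1 = 0 ∧ y2 = 0 := by
  have e0 := h 1
  have e1 := h X
  have e2 := h (X ^ 2)
  simp only [map_one, map_pow, aeval_X] at e0 e1 e2
  have m1 := sub_ne_zero.2 n1
  have m2 := sub_ne_zero.2 n2
  have m0 := sub_ne_zero.2 n0
  refine ⟨mul_left_cancel₀ (mul_ne_zero m1 m0) ?_, mul_left_cancel₀ (mul_ne_zero m1 m2) ?_,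
    mul_left_cancel₀ (mul_ne_zero m2 m0) ?_⟩
  · linear_combination -(e2 - (θ1 + θ2) * e1 + θ1 * θ2 * e0)
  · linear_combination -(e2 - (θ0 + θ2) * e1 + θ0 * θ2 * e0)
  · linear_combination -(e2 - (θ1 + θ0) * e1 + θ1 * θ0 * e0)

theorem Fr.indep (f : Fr φ p c) {y0 y1 y2 : Ω}
    (h : ∀ a : k[X], aeval f.θ0 a * y0 + aeval f.θ1 a * y1 + aeval f.θ2 a * y2 = 0) :
    y0 = 0 ∧ y1 = 0 ∧ y2 = 0 := vdm f.ne f.rot.ne f.rot.rot.ne h

theorem exists_fr (hp : Irreducible p) (hd : p.natDegree = 3) (hc : aeval φ p c = 0) {θ : Ω}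
    (h : aeval θ p = 0) : Nonempty (Fr φ p c) := by
  set q := Fintype.card k
  obtain ⟨θ1, h1⟩ : ∃ x, x = θ ^ q := ⟨_, rfl⟩
  obtain ⟨θ2, h2⟩ : ∃ x, x = θ1 ^ q := ⟨_, rfl⟩
  have h0 : θ = θ2 ^ q := by
    rw [h2, h1, ← pow_mul, ← pow_mul, show q * (q * q) = q ^ 3 by ring, root_pow hp hd h]
  have r1 : aeval θ1 p = 0 := by rw [h1, ← aeval_q, h, zero_pow q_ne]
  have r2 : aeval θ2 p = 0 := by rw [h2, ← aeval_q, r1, zero_pow q_ne]
  have n1 : θ ≠ θ1 := fun e => root_ne hp hd h (h1 ▸ e.symm)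
  have n2 : θ1 ≠ θ2 := fun e => root_ne hp hd r1 (h2 ▸ e.symm)
  have n0 : θ2 ≠ θ := fun e => root_ne hp hd r2 (h0 ▸ e.symm)
  have m1 := sub_ne_zero.2 n1
  have m2 := sub_ne_zero.2 n2
  have m0 := sub_ne_zero.2 n0
  refine ⟨⟨θ, θ1, θ2, -(φ (φ c) - (θ1 + θ2) * φ c + θ1 * θ2 * c) / ((θ - θ1) * (θ2 - θ)),
    -(φ (φ c) - (θ + θ2) * φ c + θ * θ2 * c) / ((θ - θ1) * (θ1 - θ2)),
    -(φ (φ c) - (θ1 + θ) * φ c + θ1 * θ * c) / ((θ1 - θ2) * (θ2 - θ)), h1, h2, h0, h, n1,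
    fun a => ?_⟩⟩
  have hr : (a % p).natDegree < 3 := hd ▸ natDegree_mod_lt a (by omega)
  rw [← EuclideanDomain.mod_add_div' a p, (a % p).as_sum_range_C_mul_X_pow' hr]
  simp only [Finset.sum_range_succ, Finset.sum_range_zero, map_add, map_mul, map_pow, aeval_X,
    aeval_C, LinearMap.add_apply, Module.End.mul_apply, hc, h, r1, r2, map_zero, pow_zero, pow_one,
    Module.End.one_apply, Module.algebraMap_end_apply, Algebra.smul_def, pow_two,
    LinearMap.zero_apply, map_one]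
  field_simp
  ring

theorem Fr.root_cases (f : Fr φ p c) (hd : p.natDegree = 3) {ρ : Ω} (h : aeval ρ p = 0) :
    ρ = f.θ0 ∨ ρ = f.θ1 ∨ ρ = f.θ2 := by
  classical
  by_contra! hn
  have hp : p ≠ 0 := fun e => by simp [e] at hd
  have n0 := f.ne
  have n1 : f.θ1 ≠ f.θ2 := f.rot.ne
  have n2 : f.θ2 ≠ f.θ0 := f.rot.rot.ne
  refine map_ne_zero (f := algebraMap k Ω) hp (eq_zero_of_natDegree_lt_card_of_eval_eq_zero' _
    {ρ, f.θ0, f.θ1, f.θ2} ?_ ?_)
  · have r1 : aeval f.θ1 p = 0 := f.rot.root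
    have r2 : aeval f.θ2 p = 0 := f.rot.rot.root
    simp [eval_map_algebraMap, h, f.root, r1, r2]
  · rw [natDegree_map, hd, Finset.card_insert_of_notMem (by simp [hn]),
      Finset.card_insert_of_notMem (by simp [n0, n2.symm]), Finset.card_pair n1]
    decide

theorem Fr.pow1 (f : Fr φ p c) (a : k[X]) : aeval φ a c ^ Fintype.card k =
    aeval f.θ1 a * f.x0 ^ Fintype.card k + aeval f.θ2 a * f.x1 ^ Fintype.card k +
      aeval f.θ0 a * f.x2 ^ Fintype.card k := by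
  simp only [f.rep, add_q, mul_pow, aeval_q, ← f.h1, ← f.h2, ← f.h0]

theorem Fr.pow2 (f : Fr φ p c) (a : k[X]) : aeval φ a c ^ Fintype.card k ^ 2 =
    aeval f.θ2 a * f.x0 ^ Fintype.card k ^ 2 + aeval f.θ0 a * f.x1 ^ Fintype.card k ^ 2 +
      aeval f.θ1 a * f.x2 ^ Fintype.card k ^ 2 := by
  simp only [pow_two, pow_mul, f.pow1, add_q, mul_pow, aeval_q, ← f.h1, ← f.h2, ← f.h0]

theorem Fr.pow3 (f : Fr φ p c) (a : k[X]) : aeval φ a c ^ Fintype.card k ^ 3 =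
    aeval f.θ0 a * f.x0 ^ Fintype.card k ^ 3 + aeval f.θ1 a * f.x1 ^ Fintype.card k ^ 3 +
      aeval f.θ2 a * f.x2 ^ Fintype.card k ^ 3 := by
  simp only [pow_succ (Fintype.card k) 2, pow_mul, f.pow2, add_q, mul_pow, aeval_q, ← f.h1, ← f.h2,
    ← f.h0]

theorem Fr.eqs (f : Fr φ p c) (hp : Irreducible p) (hd : p.natDegree = 3)
    (hc : ∀ a : k[X], aeval φ a c = 0 → p ∣ a) {T : Ω} {g : Fin 3 → Ω}
    (hφ : ∀ z, φ z = T * z + g 0 * z ^ Fintype.card k + g 1 * z ^ Fintype.card k ^ 2 +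
      g 2 * z ^ Fintype.card k ^ 3) :
    Eqs (Fintype.card k) g (f.θ0 - T) (f.θ1 - T) (f.θ2 - T) f.x0 f.x1 f.x2 := by
  set q := Fintype.card k with hq
  obtain ⟨e0, e1, e2⟩ := f.indep
    (y0 := g 0 * f.x2 ^ q + g 1 * f.x1 ^ q ^ 2 + g 2 * f.x0 ^ q ^ 3 - (f.θ0 - T) * f.x0)
    (y1 := g 0 * f.x0 ^ q + g 1 * f.x2 ^ q ^ 2 + g 2 * f.x1 ^ q ^ 3 - (f.θ1 - T) * f.x1)
    (y2 := g 0 * f.x1 ^ q + g 1 * f.x0 ^ q ^ 2 + g 2 * f.x2 ^ q ^ 3 - (f.θ2 - T) * f.x2)
    fun a => by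
      have e := f.rep (X * a)
      rw [map_mul, aeval_X, Module.End.mul_apply, hφ, f.pow1, f.pow2, f.pow3, f.rep] at e
      simp only [map_mul, aeval_X] at e
      linear_combination e
  refine ⟨sub_eq_zero.1 e0, sub_eq_zero.1 e1, sub_eq_zero.1 e2, fun u v w k0 k1 k2 => ?_⟩
  have := fin_root hp
  have := Fintype.ofFinite (AdjoinRoot p)
  have hq1 : 1 < q := Fintype.one_lt_card
  have hq2 : q < q ^ 2 := by nlinarith
  choose r hr using AdjoinRoot.mk_surjective (g := p)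
  have hQ : C u * X ^ 1 + C v * X ^ q + C w * X ^ q ^ 2 = 0 := by
    refine eq_zero_of_natDegree_lt_card_of_eval_eq_zero _
      (f := fun z => aeval φ (r z) c ^ q) (fun z z' e => ?_) (fun z => ?_) ?_
    · rw [← hr z, ← hr z', AdjoinRoot.mk_eq_mk]
      exact hc _ (by rw [map_sub, LinearMap.sub_apply, inj_q (k := k) e, sub_self])
    · simp only [eval_add, eval_mul, eval_C, eval_pow, eval_X, ← pow_mul]
      rw [show q * q = q ^ 2 by ring, show q * q ^ 2 = q ^ 3 by ring, mul_one, f.pow1, f.pow2,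
        f.pow3]
      linear_combination aeval f.θ0 (r z) * k0 + aeval f.θ1 (r z) * k1 + aeval f.θ2 (r z) * k2
    · rw [card_root hp hd]
      refine lt_of_le_of_lt (b := q ^ 2) ?_ (Nat.pow_lt_pow_right hq1 (by decide : 2 < 3))
      refine (natDegree_add_le _ _).trans (max_le ((natDegree_add_le _ _).trans (max_le ?_ ?_)) ?_)
      all_goals refine (natDegree_C_mul_X_pow_le _ _).trans (by omega)
  have c1 := congrArg (coeff · 1) hQ
  have c2 := congrArg (coeff · q) hQ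
  have c3 := congrArg (coeff · (q ^ 2)) hQ
  simp only [coeff_add, coeff_C_mul_X_pow, coeff_zero] at c1 c2 c3
  rw [if_pos trivial, if_neg (by omega), if_neg (by omega)] at c1
  rw [if_neg (by omega), if_pos trivial, if_neg (by omega)] at c2
  rw [if_neg (by omega), if_neg (by omega), if_pos trivial] at c3
  exact ⟨by simpa using c1, by simpa using c2, by simpa using c3⟩

/-- How an automorphism moves the coordinates. -/
theorem Fr.act {c' : Ω} (f : Fr φ p c) (f' : Fr φ p c') (σ : Ω →+* Ω)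
    (hk : ∀ a : k, σ (algebraMap k Ω a) = algebraMap k Ω a)
    (hσ : ∀ (a : k[X]) z, σ (aeval φ a z) = aeval φ a (σ z)) (hc : σ c = c') (hθ : σ f.θ0 = f'.θ0) :
    σ f.x0 = f'.x0 ∧ σ f.x1 = f'.x1 ∧ σ f.x2 = f'.x2 := by
  have h1 : σ f.θ1 = f'.θ1 := by rw [f.h1, f'.h1, map_pow, hθ]
  have h2 : σ f.θ2 = f'.θ2 := by rw [f.h2, f'.h2, map_pow, h1]
  have ha : ∀ θ (a : k[X]), σ (aeval θ a) = aeval (σ θ) a := fun θ a =>
    (aeval_algHom_apply (⟨σ, hk⟩ : Ω →ₐ[k] Ω) θ a).symm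
  obtain ⟨e0, e1, e2⟩ := f'.indep (y0 := σ f.x0 - f'.x0) (y1 := σ f.x1 - f'.x1)
    (y2 := σ f.x2 - f'.x2) fun a => by
      have e := hσ a c
      rw [hc, f.rep, f'.rep] at e
      simp only [map_add, map_mul, ha, hθ, h1, h2] at e
      linear_combination e
  exact ⟨sub_eq_zero.1 e0, sub_eq_zero.1 e1, sub_eq_zero.1 e2⟩

end Pool.Agent.P.MP_7c5a52_nt
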