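import Pool.Agent.P.MP_7c5a52_nt.Frame

/-! The local ring at the origin of `K(s,t)`, and automorphisms built from substitutions. -/

open MvPolynomial

namespace Pool.Agent.P.MP_7c5a52_nt

open scoped IntermediateField.algebraAdjoinAdjoin

variable {K Ω : Type} [Field K] [Field Ω] [Algebra K Ω]

variable (K) in
/-- The local ring at the origin. -/
def locO (v : Fin 2 → Ω) : Subring Ω where
  carrier := {z | ∃ n d : MvPolynomial (Fin 2) K, constantCoeff d ≠ 0 ∧ z * aeval v d = aeval v n}
  mul_mem' := by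
    rintro z z' ⟨n, d, h, e⟩ ⟨n', d', h', e'⟩
    exact ⟨n * n', d * d', by rw [map_mul]; exact mul_ne_zero h h', by
      rw [map_mul, map_mul, ← e, ← e']; ring⟩
  one_mem' := ⟨1, 1, by simp, by simp⟩
  add_mem' := by
    rintro z z' ⟨n, d, h, e⟩ ⟨n', d', h', e'⟩
    exact ⟨n * d' + n' * d, d * d', by rw [map_mul]; exact mul_ne_zero h h', by
      rw [map_add, map_mul, map_mul, map_mul, ← e, ← e']; ring⟩
  zero_mem' := ⟨0, 1, by simp, by simp⟩
  neg_mem' := by
    rintro z ⟨n, d, h, e⟩
    exact ⟨-n, d, h, by rw [map_neg, ← e]; ring⟩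

variable {v v' : Fin 2 → Ω}

theorem aeval_mem_locO (a : MvPolynomial (Fin 2) K) : aeval v a ∈ locO K v :=
  ⟨a, 1, by simp, by simp⟩

theorem aeval_mem_adjoin (a : MvPolynomial (Fin 2) K) :
    aeval v a ∈ IntermediateField.adjoin K (Set.range v) :=
  (IntermediateField.mem_adjoin_range_iff K v _).2 ⟨a, 1, by simp⟩

theorem aeval_ne (hv : AlgebraicIndependent K v) {d : MvPolynomial (Fin 2) K}
    (h : constantCoeff d ≠ 0) : aeval v d ≠ 0 := fun e =>
  h (by rw [hv.eq_zero_of_aeval_eq_zero d e, map_zero])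

theorem locO_int (hv : AlgebraicIndependent K v) {z : Ω}
    (hz : z ∈ IntermediateField.adjoin K (Set.range v)) (h : IsIntegral (locO K v) z) :
    z ∈ locO K v := by
  let A0 := MvPolynomial (Fin 2) K
  let N := IntermediateField.adjoin K (Set.range v)
  let : Algebra A0 Ω := (aeval v).toRingHom.toAlgebra
  let : Algebra A0 (locO K v) :=
    ((aeval v).toRingHom.codRestrict (locO K v) aeval_mem_locO).toAlgebra
  have : IsScalarTower A0 (locO K v) Ω := .of_algebraMap_eq fun _ => rfl
  let S : Submonoid A0 := (nonZeroDivisors K).comap (constantCoeff (R := K) (σ := Fin 2))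
  have hS : ∀ d : A0, d ∈ S ↔ constantCoeff d ≠ 0 := fun d => mem_nonZeroDivisors_iff_ne_zero
  have : IsLocalization S (locO K v) :=
    { map_units := fun y => by
        have h0 := aeval_ne hv ((hS y).1 y.2)
        obtain ⟨u, hu⟩ := Un.exists_unit (V := locO K v) ⟨aeval_mem_locO y.1,
          ⟨1, y, (hS y).1 y.2, by rw [inv_mul_cancel₀ h0, map_one]⟩, h0⟩
        exact (Subtype.ext hu : (u : locO K v) = algebraMap A0 _ y) ▸ u.isUnit
      surj := fun z => by
        obtain ⟨n, d, hd, e⟩ := z.2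
        exact ⟨(n, ⟨d, (hS d).2 hd⟩), Subtype.ext e⟩
      exists_of_eq := fun {x y} e => ⟨1, by
        rw [(hv (congrArg (fun z : locO K v => (z : Ω)) e) : x = y)]⟩ }
  obtain ⟨m, hm⟩ := h.exists_multiple_integral_of_isLocalization S z
  have hm' : (m • z : Ω) = z * aeval v m.1 := by
    rw [mul_comm]; rfl
  let A := Algebra.adjoin K (Set.range v)
  let e := hv.aevalEquiv
  have : IsIntegrallyClosed A := IsIntegrallyClosed.of_equiv e.toRingEquiv
  let : Algebra A0 A := e.toRingEquiv.toRingHom.toAlgebra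
  have : IsScalarTower A0 A Ω := .of_algebraMap_eq fun _ => rfl
  have hN : (m • z : Ω) ∈ N := hm' ▸ N.mul_mem hz (aeval_mem_adjoin _)
  have h2 : IsIntegral A (⟨_, hN⟩ : N) :=
    (isIntegral_algHom_iff (IsScalarTower.toAlgHom A N Ω) Subtype.val_injective).1 hm.tower_top
  obtain ⟨a, ha⟩ := IsIntegrallyClosed.algebraMap_eq_of_integral h2
  obtain ⟨n, rfl⟩ := e.surjective a
  exact ⟨n, m, (hS m).1 m.2, hm' ▸ (congrArg (fun z : N => (z : Ω)) ha).symm⟩

theorem locO_eigen (hv : AlgebraicIndependent K v) (σ : Ω →+* Ω) (l : Fin 2 → K) (β : K)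
    (hK : ∀ a : K, σ (algebraMap K Ω a) = algebraMap K Ω a)
    (hl : ∀ i, σ (v i) = algebraMap K Ω (l i) * v i) {w : Ω} (hw : Un (locO K v) w)
    (e : σ w = algebraMap K Ω β * w) : β = 1 := by
  let sc : MvPolynomial (Fin 2) K →ₐ[K] MvPolynomial (Fin 2) K := aeval fun i => C (l i) * X i
  have h1 : ∀ a, σ (aeval v a) = aeval v (sc a) := fun a => by
    induction a using MvPolynomial.induction_on with
    | C a => simp [sc, hK]
    | add a b ha hb => simp only [map_add, ha, hb]
    | mul_X a i ha => simp only [map_mul, ha, aeval_X, hl, sc, algHom_C]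
  have h2 : ∀ a, constantCoeff (sc a) = constantCoeff a := fun a => by
    induction a using MvPolynomial.induction_on <;> simp_all [sc]
  obtain ⟨⟨n, d, hd, en⟩, ⟨n', d', hd', en'⟩, h0⟩ := hw
  have e1 : n * n' = d * d' := hv (by
    simp only [map_mul, ← en, ← en']
    field_simp)
  have e2 : C β * n * sc d = sc n * d := hv (by
    have := congrArg σ en
    rw [map_mul, h1, h1, e] at this
    simp only [map_mul, algHom_C, ← en, ← this]
    ring)
  have e3 := congrArg constantCoeff e1
  have e4 := congrArg constantCoeff e2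
  simp only [map_mul, h2, constantCoeff_C] at e3 e4
  have hn : constantCoeff n ≠ 0 := fun h => mul_ne_zero hd hd' (by rw [← e3, h, zero_mul])
  exact mul_right_cancel₀ hn (mul_right_cancel₀ hd (by rw [e4, one_mul]))

theorem exists_sigma {E : Type} [Field E] [Algebra E Ω] [Normal E Ω]
    (hv : AlgebraicIndependent K v) (hv' : AlgebraicIndependent K v') (ρ : K →+* K) (S : Set Ω)
    (hS : ∀ e : E, algebraMap E Ω e ∈ Subfield.closure S)
    (h : ∀ s ∈ S, ∃ n d : MvPolynomial (Fin 2) K, aeval v d ≠ 0 ∧ s * aeval v d = aeval v n ∧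
      s * aeval v' (map ρ d) = aeval v' (map ρ n)) :
    ∃ σ : Ω ≃ₐ[E] Ω, ∀ a : MvPolynomial (Fin 2) K, σ (aeval v a) = aeval v' (map ρ a) := by
  let N := IntermediateField.adjoin K (Set.range v)
  let ι : MvPolynomial (Fin 2) K →+* Ω := (aeval v').toRingHom.comp (map ρ)
  have hι : Function.Injective ι := fun _ _ e => map_injective ρ ρ.injective (hv' e)
  let τ : N →+* Ω := (IsFractionRing.lift (K := FractionRing (MvPolynomial (Fin 2) K)) hι).comp
    hv.aevalEquivField.symm.toRingEquiv.toRingHom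
  have hτ : ∀ a, τ ⟨aeval v a, aeval_mem_adjoin a⟩ = ι a := fun a => by
    have : (⟨aeval v a, aeval_mem_adjoin a⟩ : N) = hv.aevalEquivField (algebraMap _ _ a) :=
      Subtype.ext (hv.aevalEquivField_algebraMap_apply_coe a).symm
    rw [this]
    simp [τ]
  have hfix : Subfield.closure S ≤ (τ.eqLocusField N.val.toRingHom).map N.val.toRingHom := by
    refine Subfield.closure_le.2 fun s hs => ?_
    obtain ⟨n, d, hd, e, e'⟩ := h s hs
    have hsN : s ∈ N := by
      rw [eq_div_of_mul_eq hd e]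
      exact N.div_mem (aeval_mem_adjoin n) (aeval_mem_adjoin d)
    refine ⟨⟨s, hsN⟩, ?_, rfl⟩
    have hd' : ι d ≠ 0 := (map_ne_zero_iff ι hι).2 fun e => hd (by rw [e, map_zero])
    have : (⟨s, hsN⟩ : N) * ⟨aeval v d, aeval_mem_adjoin d⟩ = ⟨aeval v n, aeval_mem_adjoin n⟩ :=
      Subtype.ext e
    have := congrArg τ this
    rw [map_mul, hτ, hτ] at this
    exact mul_right_cancel₀ hd' (this.trans e'.symm)
  have hEN : ∀ e : E, algebraMap E Ω e ∈ N := fun e => by
    obtain ⟨z, _, hz⟩ := hfix (hS e)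
    exact hz ▸ z.2
  let : Algebra E N := ((algebraMap E Ω).codRestrict N.toSubring hEN).toAlgebra
  have : IsScalarTower E N Ω := .of_algebraMap_eq fun _ => rfl
  let τ' : N →ₐ[E] Ω := ⟨τ, fun e => by
    obtain ⟨z, hz, hz'⟩ := hfix (hS e)
    have : algebraMap E N e = z := Subtype.ext hz'.symm
    rw [this]
    exact hz.trans hz'⟩
  refine ⟨AlgEquiv.ofBijective (τ'.liftNormal Ω) (AlgHom.normal_bijective E Ω Ω _), fun a => ?_⟩
  exact (τ'.liftNormal_commutes Ω ⟨aeval v a, aeval_mem_adjoin a⟩).trans (hτ a)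

end Pool.Agent.P.MP_7c5a52_nt
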