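import Pool.Agent.P.MP_7c5a52_nt.Level

/-! Charts and prime divisors of `X_0^3(p)`. -/

open Polynomial

set_option linter.unusedSectionVars false

namespace Pool.Agent.P.MP_7c5a52_nt

variable {k F E Ω : Type} [Field k] [Fintype k] [Field F] [Field E] [Field Ω] [Algebra k Ω]
  [Algebra F Ω] [Algebra E Ω] {T : F} {j : Fin 2 → E} [Algebra k F] [Algebra F E]
  [IsScalarTower F E Ω] [IsScalarTower k F Ω] [GenJ F j] [GenT k T]
  {p : k[X]} {c c' : Ω}

variable (k) in
/-- The weights. -/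
def wt (l : Fin 3) : ℕ := Fintype.card k ^ (l.1 + 1) - 1

variable (k Ω j) in
/-- Coordinates of a polynomial subring of a chart. -/
noncomputable def YY (i l : Fin 3) : Ω := g Ω j l ^ wt k i / g Ω j i ^ wt k l

theorem wt_ne (l : Fin 3) : wt k l ≠ 0 :=
  Nat.sub_ne_zero_of_lt (Nat.one_lt_pow (Nat.succ_ne_zero _) Fintype.one_lt_card)

theorem wt_cast (l : Fin 3) : (wt k l : Ω) ≠ 0 := by
  have hq0 : (Fintype.card k : Ω) = 0 := by
    rw [← map_natCast (algebraMap k Ω), FiniteField.cast_card_eq_zero, map_zero]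
  rw [wt, Nat.cast_sub (Nat.one_le_iff_ne_zero.2 (pow_ne_zero _ q_ne)), Nat.cast_pow, hq0]
  simp

variable (F) in
include F in
theorem YY_self (i : Fin 3) : YY k Ω j i i = 1 := div_self (pow_ne_zero _ (g_ne F i))

theorem YY_sum (i l : Fin 3) :
    ∑ l', (Pi.single l (wt k i) : Fin 3 → ℕ) l' * (Fintype.card k ^ (l'.1 + 1) - 1) =
      wt k l * (Fintype.card k ^ (i.1 + 1) - 1) := by
  rw [Finset.sum_eq_single l (fun b _ hb => by simp [hb]) (by simp), Pi.single_eq_same, mul_comm]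
  rfl

theorem prod_single (G : Fin 3 → Ω) (l : Fin 3) (n : ℕ) :
    ∏ l', G l' ^ (Pi.single l n : Fin 3 → ℕ) l' = G l ^ n := by
  rw [Finset.prod_eq_single l (fun b _ hb => by simp [hb]) (by simp), Pi.single_eq_same]

theorem YY_mem (i l : Fin 3) : YY k Ω j i l ∈ chartBase k F Ω j i :=
  Subring.subset_closure (.inr ⟨_, _, YY_sum i l, by rw [prod_single]; rfl⟩)

theorem YY_resc {x : Ω} (hx : x ≠ 0) (i l : Fin 3) : YY k Ω j i l =
    resc (Fintype.card k) (g Ω j) x l ^ wt k i / resc (Fintype.card k) (g Ω j) x i ^ wt k l := by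
  have := mono_resc (g := g Ω j) hx _ _ i (YY_sum (k := k) i l)
  rwa [prod_single, prod_single] at this

theorem K_mem (i : Fin 3) {y : Ω} (hy : y ∈ Fsep F Ω) : y ∈ chartBase k F Ω j i :=
  Subring.subset_closure (.inl hy)

theorem mem_chart {i : Fin 3} {z : Ω} :
    z ∈ chart k T j c i ↔ IsIntegral (chartBase k F Ω j i) z ∧ z ∈ funField k T j c := Iff.rfl

theorem K_fun {y : Ω} (hy : y ∈ Fsep F Ω) : y ∈ funField k T j c :=
  mem_funField.2 fun _ _ h => h y hy

theorem g_fun (l : Fin 3) : g Ω j l ∈ funField k T j c :=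
  mem_funField.2 fun σ _ _ => fix_g σ l

theorem base_le (i : Fin 3) : chartBase k F Ω j i ≤ chart k T j c i := fun z hz =>
  ⟨isIntegral_algebraMap (x := (⟨z, hz⟩ : chartBase k F Ω j i)),
    (Subring.closure_le (t := (funField k T j c).toSubring)).2 (by
      rintro _ (h | ⟨a, m, _, rfl⟩)
      · exact K_fun h
      · exact (funField k T j c).div_mem (prod_mem fun l _ => pow_mem (g_fun l) _)
          (pow_mem (g_fun i) _)) hz⟩

theorem map_base (σ : Ω ≃ₐ[E] Ω) (i : Fin 3) {z : Ω} (hz : z ∈ chartBase k F Ω j i) :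
    σ z ∈ chartBase k F Ω j i :=
  (Subring.closure_le (t := (chartBase k F Ω j i).comap (σ : Ω →+* Ω))).2 (by
    rintro _ (h | ⟨a, m, h, rfl⟩)
    · exact K_mem i (map_Fsep σ h)
    · refine Subring.subset_closure (.inr ⟨a, m, h, ?_⟩)
      simp [fix_g]) hz

theorem map_chart {σ : Ω ≃ₐ[E] Ω} (hσ : σ ∈ gal k T j c) (i : Fin 3) {z : Ω}
    (hz : z ∈ chart k T j c i) : σ z ∈ chart k T j c i :=
  ⟨hz.1.map_of_comp_eq (((σ : Ω →+* Ω).comp (chartBase k F Ω j i).subtype).codRestrict _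
    fun z => map_base σ i z.2) (σ : Ω →+* Ω) rfl, map_funField hσ hz.2⟩

theorem map_primeDiv {σ : Ω ≃ₐ[E] Ω} (hσ : σ ∈ gal k T j c) {V : Subring Ω}
    (hV : V ∈ primeDiv k T j c) : V.map (σ : Ω →+* Ω) ∈ primeDiv k T j c := by
  obtain ⟨i, P, hP, h1, hV⟩ := hV
  let e : chart k T j c i ≃+* chart k T j c i :=
    { toFun := fun z => ⟨σ⁻¹ z, map_chart (inv_mem hσ) i z.2⟩
      invFun := fun z => ⟨σ z, map_chart hσ i z.2⟩
      left_inv := fun z => Subtype.ext (σ.apply_symm_apply z)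
      right_inv := fun z => Subtype.ext (σ.symm_apply_apply z)
      map_mul' := fun x y => Subtype.ext (map_mul σ⁻¹ _ _)
      map_add' := fun x y => Subtype.ext (map_add σ⁻¹ _ _) }
  refine ⟨i, P.comap e, hP.comap e, by rw [e.height_comap, h1], fun z => ⟨?_, ?_⟩⟩
  · rintro ⟨_, hz, rfl⟩
    obtain ⟨x, y, hy, rfl⟩ := (hV _).1 hz
    exact ⟨e.symm x, e.symm y, by rwa [Ideal.mem_comap, e.apply_symm_apply], map_div₀ σ _ _⟩
  · rintro ⟨x, y, hy, rfl⟩
    refine ⟨_, (hV _).2 ⟨e x, e y, hy, rfl⟩, ?_⟩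
    rw [map_div₀]
    exact congrArg₂ _ (σ.apply_symm_apply _) (σ.apply_symm_apply _)

variable [IsSepClosure E Ω]

theorem Hyp.chart (H : Hyp T j p c) (f : Fr (phiT k Ω T j) p c) (i : Fin 3) :
    Nrm (chart k T j c i) (funField k T j c).toSubfield ∧ ∀ P : Ideal (chart k T j c i), P.IsPrime →
      P.height = 1 → ∀ x y : chart k T j c i, (x : Ω) = YY k Ω j i (i.succAbove 0) →
      (y : Ω) = YY k Ω j i (i.succAbove 1) → x ∈ P → y ∈ P → False := by
  let v : Fin 2 → Ω := fun l => YY k Ω j i (i.succAbove l)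
  let A := Algebra.adjoin (Fsep F Ω) (Set.range v)
  let N := IntermediateField.adjoin (Fsep F Ω) (Set.range v)
  have hY : ∀ l, YY k Ω j i l ∈ A := fun l => by
    rcases eq_or_ne l i with rfl | h
    · rw [YY_self F]; exact one_mem _
    · obtain ⟨l, rfl⟩ := Fin.exists_succAbove_eq h
      exact Algebra.subset_adjoin ⟨l, rfl⟩
  have hYN : ∀ l, YY k Ω j i l ∈ N := fun l => IntermediateField.algebra_adjoin_le_adjoin _ _ (hY l)
  have hsep : Algebra.IsSeparable N Ω := sep_of_gen (E := E) (jj Ω j) E_mem' _ fun l => by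
    refine sep_of_pow_mem (n := wt k i * wt k 0)
      (by rw [Nat.cast_mul]; exact mul_ne_zero (wt_cast i) (wt_cast 0)) (g_ne F _) ?_
    have : jj Ω j l ^ (wt k i * wt k 0) =
        YY k Ω j i l.succ ^ wt k 0 / YY k Ω j i 0 ^ wt k l.succ := by
      have := g_ne F (Ω := Ω) (j := j) i
      simp only [YY, g_zero, jj, div_pow, one_pow, ← pow_mul, mul_comm (wt k 0)]
      field_simp
    rw [this]
    exact div_mem (pow_mem (hYN _) _) (pow_mem (hYN _) _)
  refine chart_nrm v (indep_of_sep (jj_indep (j := j)) hsep) hsep _ (fun a => K_fun a.2)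
    (fun l => (base_le i (YY_mem i _)).2) (f.v 0) (f.v 1) (fun z hz => ?_) _ fun z => ?_
  · have := H.le f hz
    rwa [Fr.v, Matrix.range_cons_cons_empty] at this
  · rw [mem_chart, integral_iff (A := A)]
    · rfl
    · let B : Subalgebra (Fsep F Ω) Ω :=
        { chartBase k F Ω j i with algebraMap_mem' := fun a => K_mem i a.2 }
      exact Algebra.adjoin_le (S := B) (by rintro _ ⟨l, rfl⟩; exact YY_mem i _)
    · refine (Subring.closure_le (t := (integralClosure A Ω).toSubring)).2 ?_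
      rintro _ (h | ⟨a, m, h, rfl⟩)
      · exact isIntegral_algebraMap (x := (⟨_, A.algebraMap_mem ⟨_, h⟩⟩ : A))
      · refine IsIntegral.of_pow (Nat.pos_of_ne_zero (wt_ne (k := k) i)) ?_
        have : ((∏ l, g Ω j l ^ a l) / g Ω j i ^ m) ^ wt k i = ∏ l, YY k Ω j i l ^ a l := by
          simp only [YY, div_pow, Finset.prod_div_distrib, ← pow_mul, ← Finset.prod_pow,
            Finset.prod_pow_eq_pow_sum, mul_comm (wt k _)]
          rw [show ∑ l, a l * wt k l = m * wt k i from h]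
        rw [this]
        have hm : ∏ l, YY k Ω j i l ^ a l ∈ A := prod_mem fun l _ => pow_mem (hY l) _
        exact isIntegral_algebraMap (x := (⟨_, hm⟩ : A))

/-- A prime divisor is not centred at an elliptic point. -/
theorem Hyp.not_ell (H : Hyp T j p c) (f : Fr (phiT k Ω T j) p c) {i : Fin 3}
    {P : Ideal (MP_7c5a52_nt.chart k T j c i)} (hP : P.IsPrime) (h1 : P.height = 1)
    {W : ValuationSubring Ω} (hW : ∀ a : MP_7c5a52_nt.chart k T j c i, (a : Ω) ∈ W)
    (hc : ∀ a : MP_7c5a52_nt.chart k T j c i, W.valuation (a : Ω) < 1 ↔ a ∈ P)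
    (hs : W.valuation f.x1 < W.valuation f.x0) (ht : W.valuation f.x2 < W.valuation f.x0) :
    False := by
  have h0 := H.x0_ne f
  have hK : ∀ y ∈ Fsep F Ω, y ∈ W := fun y hy => hW ⟨y, base_le i (K_mem i hy)⟩
  have hv0 : 0 < W.valuation f.x0 := zero_lt_iff.2 ((_root_.map_ne_zero _).2 h0)
  have w0 : W.valuation (f.θ0 - TT Ω T) = 1 := by
    refine le_antisymm ((W.valuation_le_one_iff _).2 (hK _ (H.a_mem f))) ?_
    have := (W.valuation_le_one_iff _).2 (hK _ (inv_mem (H.a_mem f)))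
    rwa [map_inv₀, inv_le_one₀ (zero_lt_iff.2 ((_root_.map_ne_zero _).2 (H.a_ne f)))] at this
  obtain ⟨e0, e1, e2⟩ := (H.eqs f).ell q_ne h0 W w0 (hK _ (H.a_mem f.rot))
    (hK _ (H.a_mem f.rot.rot)) (by rwa [map_div₀, div_lt_one₀ hv0])
    (by rwa [map_div₀, div_lt_one₀ hv0])
  have hlt : ∀ l : Fin 3, l ≠ 2 → W.valuation (resc (Fintype.card k) (g Ω j) f.x0 l) < 1 := by
    intro l hl
    fin_cases l
    · exact e0
    · exact e1
    · exact absurd rfl hl
  rcases eq_or_ne i 2 with rfl | hi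
  · have hP' : ∀ l, (⟨_, base_le 2 (YY_mem 2 (Fin.succAbove 2 l))⟩ :
        MP_7c5a52_nt.chart k T j c 2) ∈ P := fun l => (hc _).1 (by
      simp only [YY_resc h0, map_div₀, map_pow, e2, one_pow, div_one]
      exact pow_lt_one₀ zero_le (hlt _ (Fin.succAbove_ne _ _)) (wt_ne _))
    exact (H.chart f 2).2 P hP h1 _ _ rfl rfl (hP' 0) (hP' 1)
  · have := (W.valuation_le_one_iff _).2 (hW ⟨_, base_le i (YY_mem i 2)⟩)
    simp only [YY_resc h0, map_div₀, map_pow, e2, one_pow] at this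
    rw [div_le_one₀ (pow_pos (zero_lt_iff.2 ((_root_.map_ne_zero _).2 (resc_ne F h0 i))) _)] at this
    exact absurd (pow_lt_one₀ zero_le (hlt i hi) (wt_ne 2)) (not_lt.2 this)

/-- The elliptic point lies on the open part. -/
theorem Hyp.le_locO (H : Hyp T j p c) (f : Fr (phiT k Ω T j) p c) {z : Ω}
    (hz : z ∈ MP_7c5a52_nt.chart k T j c 2) : z ∈ locO (Fsep F Ω) f.v := by
  have h0 := H.x0_ne f
  have hd : MvPolynomial.constantCoeff (dd k F Ω) = 1 := by
    simp [dd, map_dl, dl_zero q_ne]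
  have hn : MvPolynomial.constantCoeff (H.nn f 2) ≠ 0 := by
    simp only [Hyp.nn, map_num, MvPolynomial.constantCoeff_C, MvPolynomial.constantCoeff_X,
      num_zero q_ne]
    exact fun e => H.a_ne f (congrArg Subtype.val e)
  have hr : ∀ l, resc (Fintype.card k) (g Ω j) f.x0 l ∈ locO (Fsep F Ω) f.v := fun l =>
    ⟨_, _, hd ▸ one_ne_zero, H.resc_mul f h0 l⟩
  have hr' : (resc (Fintype.card k) (g Ω j) f.x0 2)⁻¹ ∈ locO (Fsep F Ω) f.v :=
    ⟨dd k F Ω, _, hn, by rw [← H.resc_mul f h0 2, inv_mul_cancel_left₀ (resc_ne F h0 2)]⟩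
  have hB : chartBase k F Ω j 2 ≤ locO (Fsep F Ω) f.v := Subring.closure_le.2 (by
    rintro _ (h | ⟨a, m, h, rfl⟩)
    · simpa using aeval_mem_locO (v := f.v) (MvPolynomial.C (⟨_, h⟩ : Fsep F Ω))
    · rw [mono_resc h0 a m 2 h, div_eq_mul_inv, ← inv_pow]
      exact mul_mem (prod_mem fun l _ => pow_mem (hr l) _) (pow_mem hr' _))
  exact locO_int (H.indep f) (H.le f hz.2)
    (hz.1.map_of_comp_eq (Subring.inclusion hB) (RingHom.id Ω) rfl)

end Pool.Agent.P.MP_7c5a52_nt
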