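import Pool.Agent.P.MP_7c5a52_nt.Setup

/-! The function field of `X_0^3(p)` for cubic `p`, in eigen-coordinates. -/

open Polynomial

set_option linter.unusedSectionVars false

namespace Pool.Agent.P.MP_7c5a52_nt

variable {k F E Ω : Type} [Field k] [Fintype k] [Field F] [Field E] [Field Ω] [Algebra k Ω]
  [Algebra F Ω] [Algebra E Ω] {T : F} {j : Fin 2 → E} [Algebra k F] [Algebra F E]
  [IsScalarTower F E Ω] [IsScalarTower k F Ω] [GenJ F j] [GenT k T]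
  {p : k[X]} {c c' : Ω}

variable (T j) in
/-- Standing hypotheses. -/
structure Hyp (p : k[X]) (c : Ω) : Prop where
  irr : Irreducible p
  deg : p.natDegree = 3
  lev : IsLevel k T j (Ideal.span {p}) c

/-- Affine coordinates. -/
noncomputable def Fr.v {φ : Module.End k Ω} (f : Fr φ p c) : Fin 2 → Ω := ![f.x1 / f.x0, f.x2 / f.x0]

theorem Hyp.eqs (H : Hyp T j p c) (f : Fr (phiT k Ω T j) p c) : Eqs (Fintype.card k) (g Ω j)
    (f.θ0 - TT Ω T) (f.θ1 - TT Ω T) (f.θ2 - TT Ω T) f.x0 f.x1 f.x2 :=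
  f.eqs H.irr H.deg (fun a => (H.lev.iff a).1) phiT_apply

theorem Hyp.a_mem (H : Hyp T j p c) (f : Fr (phiT k Ω T j) p c) : f.θ0 - TT Ω T ∈ Fsep F Ω :=
  sub_mem (root_mem H.irr f.root) (IntermediateField.algebraMap_mem _ _)

theorem Hyp.a_ne (H : Hyp T j p c) (f : Fr (phiT k Ω T j) p c) : f.θ0 - TT Ω T ≠ 0 := fun e =>
  aeval_TT H.irr.ne_zero (sub_eq_zero.1 e ▸ f.root)

/-- The Cramer numerators as polynomials. -/
noncomputable def Hyp.nn (H : Hyp T j p c) (f : Fr (phiT k Ω T j) p c) (l : Fin 3) :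
    MvPolynomial (Fin 2) (Fsep F Ω) :=
  num (Fintype.card k) (MvPolynomial.C ⟨_, H.a_mem f⟩) (MvPolynomial.C ⟨_, H.a_mem f.rot⟩)
    (MvPolynomial.C ⟨_, H.a_mem f.rot.rot⟩) (MvPolynomial.X 0) (MvPolynomial.X 1) l

variable (k F Ω) in
/-- The determinant as a polynomial. -/
noncomputable def dd : MvPolynomial (Fin 2) (Fsep F Ω) :=
  dl (Fintype.card k) (MvPolynomial.X 0) (MvPolynomial.X 1)

omit [Algebra k F] [IsScalarTower k F Ω] in
theorem aeval_dd {φ : Module.End k Ω} (f : Fr φ p c) :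
    MvPolynomial.aeval f.v (dd k F Ω) = dl (Fintype.card k) (f.x1 / f.x0) (f.x2 / f.x0) := by
  refine (map_dl _ (MvPolynomial.aeval (R := Fsep F Ω) f.v).toRingHom _ _).trans ?_
  simp [Fr.v]

theorem Hyp.resc_mul (H : Hyp T j p c) (f : Fr (phiT k Ω T j) p c) (h0 : f.x0 ≠ 0) (l : Fin 3) :
    resc (Fintype.card k) (g Ω j) f.x0 l * MvPolynomial.aeval f.v (dd k F Ω) =
      MvPolynomial.aeval f.v (H.nn f l) := by
  rw [aeval_dd, (H.eqs f).cramer q_ne h0]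
  refine ((map_num _ (MvPolynomial.aeval (R := Fsep F Ω) f.v).toRingHom _ _ _ _ _ l).trans ?_).symm
  simp [Fr.v, Fr.rot]

variable (F) in
include F in
theorem resc_ne {x : Ω} (h0 : x ≠ 0) (l : Fin 3) : resc (Fintype.card k) (g Ω j) x l ≠ 0 :=
  mul_ne_zero (g_ne F l) (pow_ne_zero _ h0)

theorem g_eq {x : Ω} (h0 : x ≠ 0) (l : Fin 3) :
    g Ω j l = resc (Fintype.card k) (g Ω j) x l / resc (Fintype.card k) (g Ω j) x 0 ^
      ∑ i ∈ Finset.range (l.1 + 1), Fintype.card k ^ i := by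
  simp only [resc, g_zero, one_mul, ← pow_mul, Fin.val_zero, zero_add, pow_one]
  rw [mul_comm (Fintype.card k - 1), geom_sum_mul_of_one_le Fintype.card_pos,
    mul_div_cancel_right₀ _ (pow_ne_zero _ h0)]

theorem Hyp.g_mul (H : Hyp T j p c) (f : Fr (phiT k Ω T j) p c) (h0 : f.x0 ≠ 0) (l : Fin 3) :
    let e := ∑ i ∈ Finset.range (l.1 + 1), Fintype.card k ^ i
    MvPolynomial.aeval f.v (H.nn f 0 ^ e * dd k F Ω) ≠ 0 ∧
    g Ω j l * MvPolynomial.aeval f.v (H.nn f 0 ^ e * dd k F Ω) =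
      MvPolynomial.aeval f.v (H.nn f l * dd k F Ω ^ e) := by
  intro e
  have hd : MvPolynomial.aeval f.v (dd k F Ω) ≠ 0 := by
    rw [aeval_dd]; exact (H.eqs f).dl_ne h0
  have h1 := resc_ne F (k := k) (j := j) h0 0
  simp only [map_mul, map_pow, ← H.resc_mul f h0]
  refine ⟨mul_ne_zero (pow_ne_zero _ (mul_ne_zero h1 hd)) hd, ?_⟩
  rw [g_eq (k := k) h0 l, mul_pow]
  field_simp
  rfl

variable [IsSepClosure E Ω]

theorem Hyp.indep0 (H : Hyp T j p c) (f : Fr (phiT k Ω T j) p c) (h0 : f.x0 ≠ 0) :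
    AlgebraicIndependent (Fsep F Ω) f.v := by
  refine indep_of_sep (jj_indep (j := j)) (sep_of_gen (E := E) (jj Ω j) E_mem' _ fun i => ?_)
  obtain ⟨h1, h2⟩ := H.g_mul f h0 i.succ
  exact isSeparable_algebraMap (⟨jj Ω j i, (IntermediateField.mem_adjoin_range_iff _ _ _).2
    ⟨_, _, eq_div_of_mul_eq h1 h2⟩⟩ : IntermediateField.adjoin (Fsep F Ω) (Set.range f.v))

theorem Hyp.x0_ne (H : Hyp T j p c) (f : Fr (phiT k Ω T j) p c) : f.x0 ≠ 0 := by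
  have key : ∀ f : Fr (phiT k Ω T j) p c, f.x0 ≠ 0 → f.x1 ≠ 0 ∧ f.x2 ≠ 0 := fun f h0 =>
    ⟨(div_ne_zero_iff.1 ((H.indep0 f h0).ne_zero 0)).1,
      (div_ne_zero_iff.1 ((H.indep0 f h0).ne_zero 1)).1⟩
  intro e
  have e1 : f.x1 = 0 := by_contra fun h => (key f.rot h).2 e
  have e2 : f.x2 = 0 := by_contra fun h => (key f.rot.rot h).1 e
  exact H.lev.ne H.irr (by simpa [e, e1, e2] using f.rep 1)

theorem Hyp.indep (H : Hyp T j p c) (f : Fr (phiT k Ω T j) p c) : AlgebraicIndependent (Fsep F Ω) f.v :=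
  H.indep0 f (H.x0_ne f)

theorem Hyp.scal (H : Hyp T j p c) (H' : Hyp T j p c') (f : Fr (phiT k Ω T j) p c)
    (f' : Fr (phiT k Ω T j) p c') (σ : Ω ≃ₐ[E] Ω) (hθ : σ f.θ0 = f'.θ0)
    (hv : ∀ i, σ (f.v i) = f'.v i) : ∃ b : k, b ≠ 0 ∧ σ c = aeval (phiT k Ω T j) (C b) c' := by
  have h0 := H.x0_ne f
  have h0' := H'.x0_ne f'
  have h1 : σ f.θ1 = f'.θ1 := by rw [f.h1, f'.h1, map_pow, hθ]
  have h2 : σ f.θ2 = f'.θ2 := by rw [f.h2, f'.h2, map_pow, h1]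
  have hs : σ (f.x1 / f.x0) = f'.x1 / f'.x0 := hv 0
  have ht : σ (f.x2 / f.x0) = f'.x2 / f'.x0 := hv 1
  have e := congrArg (σ : Ω →+* Ω) ((H.eqs f).cramer q_ne h0 0)
  rw [map_mul, map_dl, map_num] at e
  simp only [RingHom.coe_coe, map_sub, hs, ht, hθ, h1, h2, fix_F] at e
  rw [← (H'.eqs f').cramer q_ne h0' 0] at e
  have e' := mul_right_cancel₀ ((H'.eqs f').dl_ne h0') e
  rw [resc_eq q_ne h0, resc_eq q_ne h0'] at e'
  simp only [g_zero, Fin.val_zero, zero_add, pow_one, one_mul, map_div₀, map_pow] at e'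
  have hσ : σ f.x0 ≠ 0 := (_root_.map_ne_zero σ).2 h0
  obtain ⟨b, hb⟩ := mem_of_pow_q (k := k) (b := σ f.x0 / f'.x0) (by
    rw [div_pow, div_eq_div_iff (pow_ne_zero _ h0') h0', (div_eq_div_iff hσ h0').1 e', mul_comm])
  refine ⟨b, fun e => ?_, ?_⟩
  · rw [e, map_zero] at hb
    exact div_ne_zero hσ h0' hb.symm
  · have r := f.rep 1
    have r' := f'.rep 1
    simp only [map_one, Module.End.one_apply, one_mul] at r r'
    rw [map_div₀] at hs ht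
    have r2 := congrArg σ r
    rw [map_add, map_add, (div_eq_iff hσ).1 hs, (div_eq_iff hσ).1 ht] at r2
    rw [aeval_C, Module.algebraMap_end_apply, Algebra.smul_def, hb, r2,
      congrArg (σ f.x0 / f'.x0 * ·) r']
    field_simp

theorem Hyp.sigma (H : Hyp T j p c) (H' : Hyp T j p c') (f : Fr (phiT k Ω T j) p c)
    (f' : Fr (phiT k Ω T j) p c') (ρ : Fsep F Ω ≃ₐ[F] Fsep F Ω)
    (hθ : (ρ ⟨_, root_mem H.irr f.root⟩ : Ω) = f'.θ0) :
    ∃ σ : Ω ≃ₐ[E] Ω, (∀ y : Fsep F Ω, σ y = ρ y) ∧ ∀ i, σ (f.v i) = f'.v i := by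
  have hT : ∀ (x y : Ω) (hx : x ∈ Fsep F Ω) (h : x - TT Ω T ∈ Fsep F Ω)
      (h' : y - TT Ω T ∈ Fsep F Ω), (ρ ⟨x, hx⟩ : Ω) = y → ρ ⟨_, h⟩ = ⟨_, h'⟩ := by
    intro x y hx h h' e
    have : (⟨_, h⟩ : Fsep F Ω) = ⟨x, hx⟩ - algebraMap F _ T := rfl
    rw [this, map_sub, ρ.commutes]
    exact Subtype.ext (by simp [e])
  have hp : ∀ (x y : Ω) (hx : x ∈ Fsep F Ω) (hy : y ∈ Fsep F Ω), y = x ^ Fintype.card k →
      (ρ ⟨y, hy⟩ : Ω) = (ρ ⟨x, hx⟩ : Ω) ^ Fintype.card k := by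
    rintro x _ hx hy rfl
    have : (⟨_, hy⟩ : Fsep F Ω) = ⟨x, hx⟩ ^ Fintype.card k := rfl
    rw [this, map_pow]
    rfl
  have h1 : (ρ ⟨_, root_mem H.irr f.rot.root⟩ : Ω) = f'.θ1 := by
    rw [hp _ f.rot.θ0 (root_mem H.irr f.root) _ f.h1, hθ, f'.h1]
  have h2 : (ρ ⟨_, root_mem H.irr f.rot.rot.root⟩ : Ω) = f'.θ2 := by
    rw [hp _ f.rot.rot.θ0 (root_mem H.irr f.rot.root) _ f.rot.h1, h1, f'.h2]
  have hd : MvPolynomial.map (ρ : Fsep F Ω →+* Fsep F Ω) (dd k F Ω) = dd k F Ω := by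
    simp [dd, map_dl]
  have hn : ∀ l, MvPolynomial.map (ρ : Fsep F Ω →+* Fsep F Ω) (H.nn f l) = H'.nn f' l := fun l => by
    simp only [Hyp.nn, map_num, MvPolynomial.map_C, MvPolynomial.map_X, RingHom.coe_coe]
    rw [hT _ _ _ _ (H'.a_mem f') hθ, hT _ _ _ _ (H'.a_mem f'.rot) h1,
      hT _ _ _ _ (H'.a_mem f'.rot.rot) h2]
  obtain ⟨σ, hσ⟩ := exists_sigma (E := E) (H.indep f) (H'.indep f') (ρ : Fsep F Ω →+* Fsep F Ω)
    (Set.range (algebraMap F Ω) ∪ Set.range (jj Ω j)) E_mem (by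
      rintro _ (⟨a, rfl⟩ | ⟨i, rfl⟩)
      · exact ⟨MvPolynomial.C (algebraMap _ _ a), 1, by simp, by simp, by simp⟩
      · refine ⟨_, _, (H.g_mul f (H.x0_ne f) i.succ).1, (H.g_mul f (H.x0_ne f) i.succ).2, ?_⟩
        simp only [map_mul (MvPolynomial.map _), map_pow (MvPolynomial.map _), hd, hn]
        exact (H'.g_mul f' (H'.x0_ne f') i.succ).2)
  exact ⟨σ, fun y => by simpa using hσ (MvPolynomial.C y),
    fun i => by simpa using hσ (MvPolynomial.X i)⟩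

theorem not_dvd_C (hp : Irreducible p) {b : k} (hb : b ≠ 0) : ¬ p ∣ C b := fun h =>
  hp.not_isUnit (isUnit_of_dvd_unit h (isUnit_C.2 hb.isUnit))

theorem Hyp.le (H : Hyp T j p c) (f : Fr (phiT k Ω T j) p c) {z : Ω} (hz : z ∈ funField k T j c) :
    z ∈ IntermediateField.adjoin (Fsep F Ω) (Set.range f.v) := by
  let N := IntermediateField.adjoin (Fsep F Ω) (Set.range f.v)
  have hj : IntermediateField.adjoin (Fsep F Ω) (Set.range (jj Ω j)) ≤ N :=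
    IntermediateField.adjoin_le_iff.2 (by
      rintro _ ⟨i, rfl⟩
      obtain ⟨h1, h2⟩ := H.g_mul f (H.x0_ne f) i.succ
      exact (IntermediateField.mem_adjoin_range_iff _ _ _).2 ⟨_, _, eq_div_of_mul_eq h1 h2⟩)
  let M : IntermediateField E Ω := N.toSubfield.toIntermediateField fun e => hj (E_mem' e)
  change z ∈ M
  rw [← InfiniteGalois.fixedField_fixingSubgroup M, IntermediateField.mem_fixedField_iff]
  intro σ hσ
  rw [IntermediateField.mem_fixingSubgroup_iff] at hσ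
  have hK : ∀ y ∈ Fsep F Ω, σ y = y := fun y hy => hσ y (N.algebraMap_mem ⟨y, hy⟩)
  have hv : ∀ i, f.v i ∈ N := fun i => IntermediateField.subset_adjoin _ _ ⟨i, rfl⟩
  obtain ⟨b, hb, e⟩ := H.scal H f f σ (hK _ (root_mem H.irr f.root)) fun i => hσ _ (hv i)
  exact mem_funField.1 hz σ (gal_of H.lev H.irr (not_dvd_C H.irr hb) e) hK

theorem Hyp.act (H : Hyp T j p c) (f f' : Fr (phiT k Ω T j) p c) {σ : Ω ≃ₐ[E] Ω}
    (hσ : σ ∈ gal k T j c) (hθ : σ f.θ0 = f'.θ0) :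
    ∃ α : Ω, α ≠ 0 ∧ ((α ^ Fintype.card k) ^ Fintype.card k) ^ Fintype.card k = α ∧
      σ f.x0 = α * f'.x0 ∧ σ f.x1 = α ^ Fintype.card k * f'.x1 ∧
      σ f.x2 = (α ^ Fintype.card k) ^ Fintype.card k * f'.x2 := by
  obtain ⟨a, ha⟩ := gal_exists hσ
  obtain ⟨e0, e1, e2⟩ := f.act (f'.mul a) (σ : Ω →+* Ω) (fix_k F σ) (comm_phi σ) ha hθ
  refine ⟨aeval f'.θ0 a, fun e => H.lev.ne H.irr ?_, ?_, e0, ?_, ?_⟩
  · have := (H.lev.iff a).2 (by
      rw [← (minpoly.eq_of_irreducible H.irr f'.root ▸ associated_mul_unit_left p _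
        (isUnit_C.2 (inv_ne_zero (leadingCoeff_ne_zero.2 H.irr.ne_zero)).isUnit) :
          Associated (minpoly k f'.θ0) p).dvd_iff_dvd_left]
      exact minpoly.dvd k _ e)
    rwa [← ha, map_eq_zero] at this
  · simp only [aeval_q, ← f'.h1, ← f'.h2, ← f'.h0]
  · rw [aeval_q, ← f'.h1]; exact e1
  · rw [aeval_q, ← f'.h1, aeval_q, ← f'.h2]; exact e2

end Pool.Agent.P.MP_7c5a52_nt
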