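import Pool.Agent.P.MP_7c5a52_nt.Geo

/-! A rational three-torsion class that is not cuspidal. -/

open Polynomial

set_option linter.unusedSectionVars false

namespace Pool.Agent.P.MP_7c5a52_nt

variable {k F E Ω : Type} [Field k] [Fintype k] [Field F] [Field E] [Field Ω] [Algebra k Ω]
  [Algebra F Ω] [Algebra E Ω] {T : F} {j : Fin 2 → E} [Algebra k F] [Algebra F E]
  [IsScalarTower F E Ω] [IsScalarTower k F Ω] [GenJ F j] [GenT k T]
  [IsSepClosure E Ω] {p : k[X]} {c : Ω} {m : ℕ}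

/-- The Kummer generator. -/
noncomputable def Fr.z {φ : Module.End k Ω} (f : Fr φ p c) (m : ℕ) : Ω :=
  (f.x1 / f.x0) ^ (3 * m ^ 2 + 3 * m + 1)

theorem Hyp.z_ne (H : Hyp T j p c) (f : Fr (phiT k Ω T j) p c) : f.z m ≠ 0 :=
  pow_ne_zero _ (div_ne_zero (H.x0_ne f.rot) (H.x0_ne f))

theorem Hyp.act_z (H : Hyp T j p c) (hm : Fintype.card k = 3 * m + 1) (f f' : Fr (phiT k Ω T j) p c)
    {σ : Ω ≃ₐ[E] Ω} (hσ : σ ∈ gal k T j c) (hθ : σ f.θ0 = f'.θ0) :
    ∃ β : Ω, β ^ 3 = 1 ∧ σ (f.z m) = β * f'.z m ∧ σ (f.rot.z m) = β * f'.rot.z m := by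
  obtain ⟨α, h0, h3, e0, e1, e2⟩ := H.act f f' hσ hθ
  have hβ : ((α ^ Fintype.card k / α) ^ (3 * m ^ 2 + 3 * m + 1)) ^ 3 = 1 := by
    rw [← pow_mul, show (3 * m ^ 2 + 3 * m + 1) * 3 =
      Fintype.card k * Fintype.card k + Fintype.card k + 1 by rw [hm]; ring, div_pow,
      div_eq_one_iff_eq (pow_ne_zero _ h0)]
    simp only [pow_succ, pow_add, pow_mul, h3]
    ring
  refine ⟨_, hβ, ?_, ?_⟩
  · rw [Fr.z, Fr.z, map_pow, map_div₀, e0, e1, ← mul_pow, div_mul_div_comm]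
  · have : (α ^ Fintype.card k / α) ^ (3 * m ^ 2 + 3 * m + 1) =
        ((α ^ Fintype.card k / α) ^ Fintype.card k) ^ (3 * m ^ 2 + 3 * m + 1) := by
      rw [pow_right_comm _ (Fintype.card k)]
      generalize (α ^ Fintype.card k / α) ^ (3 * m ^ 2 + 3 * m + 1) = β at hβ
      rw [hm, pow_succ, pow_mul, hβ, one_pow, one_mul]
    rw [this, Fr.z, Fr.z, map_pow, map_div₀, ← mul_pow, div_pow _ α, div_mul_div_comm]
    exact congrArg (· ^ _) (congrArg₂ (· / ·) e2 e1)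

theorem Hyp.h_mem (H : Hyp T j p c) (hm : Fintype.card k = 3 * m + 1) (f : Fr (phiT k Ω T j) p c) :
    f.z m ^ 3 ∈ funField k T j c := mem_funField.2 fun σ hσ hK => by
  obtain ⟨β, h, e, _⟩ := H.act_z hm f f hσ (hK _ (root_mem H.irr f.root))
  rw [map_pow, e, mul_pow, h, one_mul]

theorem Hyp.u_mem (H : Hyp T j p c) (hm : Fintype.card k = 3 * m + 1) (f : Fr (phiT k Ω T j) p c) :
    f.rot.z m / f.z m ∈ funField k T j c := mem_funField.2 fun σ hσ hK => by
  obtain ⟨β, h, e, e'⟩ := H.act_z hm f f hσ (hK _ (root_mem H.irr f.root))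
  rw [map_div₀, e, e', mul_div_mul_left _ _ fun e => by simp [e] at h]

theorem Hyp.dvr (H : Hyp T j p c) (f : Fr (phiT k Ω T j) p c) {V : Subring Ω}
    (hV : V ∈ primeDiv k T j c) : IsDiscreteValuationRing V := by
  obtain ⟨i, P, hP, h1, hV⟩ := hV
  exact (H.chart f i).1.dvr hP h1 hV

theorem Hyp.ord (H : Hyp T j p c) (f : Fr (phiT k Ω T j) p c) {V : Subring Ω}
    (hV : V ∈ primeDiv k T j c) {u : Ω} (hu : u ∈ funField k T j c) (h0 : u ≠ 0) :
    ∃ n, IsOrd V u n := by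
  obtain ⟨i, P, hP, h1, hV⟩ := hV
  exact (H.chart f i).1.exists_ord hP h1 hV hu h0

theorem Hyp.three (H : Hyp T j p c) (hm : Fintype.card k = 3 * m + 1) (f : Fr (phiT k Ω T j) p c)
    {V : Subring Ω} (hV : V ∈ primeDiv k T j c) : ∃ n, IsOrd V (f.z m ^ 3) (3 * n) := by
  have := H.dvr f hV
  have back : ∀ f : Fr (phiT k Ω T j) p c, (∃ n, IsOrd V (f.rot.z m ^ 3) (3 * n)) →
      ∃ n, IsOrd V (f.z m ^ 3) (3 * n) := by
    rintro f ⟨n, hn⟩
    obtain ⟨n', hn'⟩ := H.ord f hV (H.u_mem hm f) (div_ne_zero (H.z_ne _) (H.z_ne _))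
    refine ⟨n - n', ?_⟩
    have := hn.mul hn'.cube.inv
    rwa [div_pow, inv_div, mul_div_cancel₀ _ (pow_ne_zero _ (H.z_ne _)), ← sub_eq_add_neg,
      ← mul_sub] at this
  obtain ⟨i, P, hP, h1, hV'⟩ := hV
  obtain ⟨W, hW, hc⟩ := exists_center P hP
  have eq : ∀ f : Fr (phiT k Ω T j) p c, W.valuation f.x0 = W.valuation f.x1 →
      ∃ n, IsOrd V (f.z m ^ 3) (3 * n) := fun f e =>
    ⟨0, isOrd_zero_iff.2 ((H.chart f i).1.un_of_val hP h1 hV' hW hc (H.h_mem hm f) (by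
      rw [Fr.z, map_pow, map_pow, map_div₀, ← e,
        div_self ((_root_.map_ne_zero _).2 (H.x0_ne f)), one_pow, one_pow]))⟩
  have n0 := fun a b => H.not_ell f hP h1 hW hc a b
  have n1 : W.valuation f.x2 < W.valuation f.x1 → W.valuation f.x0 < W.valuation f.x1 → False :=
    fun a b => H.not_ell f.rot hP h1 hW hc a b
  have n2 : W.valuation f.x0 < W.valuation f.x2 → W.valuation f.x1 < W.valuation f.x2 → False :=
    fun a b => H.not_ell f.rot.rot hP h1 hW hc a b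
  by_cases e01 : W.valuation f.x0 = W.valuation f.x1
  · exact eq f e01
  by_cases e12 : W.valuation f.x1 = W.valuation f.x2
  · exact back f (eq f.rot e12)
  by_cases e20 : W.valuation f.x2 = W.valuation f.x0
  · exact back f (back _ (eq f.rot.rot e20))
  exfalso
  rcases lt_or_gt_of_ne e01 with a | a <;> rcases lt_or_gt_of_ne e12 with b | b <;>
    rcases lt_or_gt_of_ne e20 with d | d
  all_goals first
    | exact n0 ‹_› ‹_›
    | exact n1 ‹_› ‹_›
    | exact n2 ‹_› ‹_›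
    | exact absurd (a.trans (b.trans d)) (lt_irrefl _)
    | exact absurd (d.trans (b.trans a)) (lt_irrefl _)

theorem Hyp.exists_div (H : Hyp T j p c) (f : Fr (phiT k Ω T j) p c) {u : Ω} (hu : u ∈ funField k T j c)
    (h0 : u ≠ 0) (h : ∀ V ∈ primeDiv k T j c, ∃ n, IsOrd V u (3 * n)) :
    ∃ D : WDiv (primeDiv k T j c), ∀ V ∈ primeDiv k T j c, IsOrd V u (3 * D.1 V) := by
  classical
  choose! n hn using h
  let n' : Subring Ω → ℤ := fun V => if V ∈ primeDiv k T j c then n V else 0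
  have hfin : n'.support.Finite := by
    refine (Set.finite_iUnion fun i => (H.chart f i).1.finite hu h0).subset fun V hV => ?_
    have hV1 : V ∈ primeDiv k T j c := by_contra fun h => hV (if_neg h)
    have := H.dvr f hV1
    obtain ⟨i, hi⟩ := id hV1
    refine Set.mem_iUnion.2 ⟨i, hi, fun hu => hV ?_⟩
    have := (hn V hV1).unique (isOrd_zero_iff.2 hu)
    simp only [n', if_pos hV1]
    omega
  refine ⟨⟨Finsupp.ofSupportFinite n' hfin, (Finsupp.mem_supported' _ _).2 fun V hV => if_neg hV⟩,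
    fun V hV => ?_⟩
  have : n' V = n V := if_pos hV
  change IsOrd V u (3 * n' V)
  exact this ▸ hn V hV

theorem Hyp.of_prin (H : Hyp T j p c) (f : Fr (phiT k Ω T j) p c) {D : WDiv (primeDiv k T j c)}
    (hD : D ∈ prin (funField k T j c).toSubfield (primeDiv k T j c)) :
    ∃ u ∈ funField k T j c, u ≠ 0 ∧ ∀ V ∈ primeDiv k T j c, IsOrd V u (D.1 V) := by
  induction hD using Submodule.span_induction with
  | mem D h => exact h
  | zero =>
    refine ⟨1, one_mem _, one_ne_zero, fun V hV => ?_⟩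
    have := H.dvr f hV
    exact isOrd_zero_iff.2 ⟨one_mem _, by simp, one_ne_zero⟩
  | add D D' _ _ h h' =>
    obtain ⟨u, h1, h2, h3⟩ := h
    obtain ⟨u', h1', h2', h3'⟩ := h'
    refine ⟨u * u', mul_mem h1 h1', mul_ne_zero h2 h2', fun V hV => ?_⟩
    have := H.dvr f hV
    exact (h3 V hV).mul (h3' V hV)
  | smul a D _ h =>
    obtain ⟨u, h1, h2, h3⟩ := h
    refine ⟨u ^ a, zpow_mem h1 a, zpow_ne_zero a h2, fun V hV => ?_⟩
    have := H.dvr f hV
    exact (h3 V hV).zpow a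

theorem Hyp.rational (H : Hyp T j p c) (hm : Fintype.card k = 3 * m + 1) (f : Fr (phiT k Ω T j) p c)
    {D : WDiv (primeDiv k T j c)} (hD : ∀ V ∈ primeDiv k T j c, IsOrd V (f.z m ^ 3) (3 * D.1 V)) :
    IsRational k T j ((prin (funField k T j c).toSubfield (primeDiv k T j c)).mkQ D) := by
  intro ρ
  obtain ⟨f', hθ, hu⟩ : ∃ f' : Fr (phiT k Ω T j) p c,
      (ρ ⟨_, root_mem H.irr f.root⟩ : Ω) = f'.θ0 ∧ f'.z m / f.z m ∈ funField k T j c := by
    have hr : aeval (ρ ⟨_, root_mem H.irr f.root⟩ : Ω) p = 0 := by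
      have h0 : aeval (⟨_, root_mem H.irr f.root⟩ : Fsep F Ω) (p.map (algebraMap k F))
          = 0 := Subtype.ext (by
        rw [← IntermediateField.aeval_coe, aeval_map_algebraMap]; exact f.root)
      rw [← aeval_map_algebraMap F, IntermediateField.aeval_coe, aeval_algHom_apply ρ, h0,
        map_zero]
      rfl
    rcases f.root_cases H.deg hr with h | h | h
    · exact ⟨f, h, by rw [div_self (H.z_ne f)]; exact one_mem _⟩
    · exact ⟨f.rot, h, H.u_mem hm f⟩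
    · refine ⟨f.rot.rot, h, ?_⟩
      rw [← div_mul_div_cancel₀ (H.z_ne (m := m) f.rot)]
      exact mul_mem (H.u_mem hm f.rot) (H.u_mem hm f)
  obtain ⟨σ, hK, hv⟩ := H.sigma H f f' ρ hθ
  have hθ' : σ f.θ0 = f'.θ0 := (hK ⟨_, root_mem H.irr f.root⟩).trans hθ
  obtain ⟨b, hb, e⟩ := H.scal H f f' σ hθ' hv
  have hσ := gal_of H.lev H.irr (not_dvd_C H.irr hb) e
  have hinj : Function.Injective (Subring.map (σ : Ω →+* Ω)) := fun V V' e =>
    SetLike.coe_injective (σ.injective.image_injective (congrArg SetLike.coe e))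
  refine ⟨σ, hσ, hK, D, ⟨D.1.mapDomain (Subring.map (σ : Ω →+* Ω)), ?_⟩, rfl, ?_, rfl⟩
  · classical
    refine (Finsupp.mem_supported _ _).2 fun V hV => ?_
    obtain ⟨V', hV', rfl⟩ := Finset.mem_image.1 (Finsupp.mapDomain_support hV)
    exact map_primeDiv hσ (D.2 hV')
  refine (Submodule.Quotient.eq _).2 (Submodule.subset_span
    ⟨_, hu, div_ne_zero (H.z_ne _) (H.z_ne _), fun V hV => ?_⟩)
  have := H.dvr f hV
  have hV0 := map_primeDiv (inv_mem hσ) hV
  have hVe : (V.map ((σ⁻¹ : Ω ≃ₐ[E] Ω) : Ω →+* Ω)).map (σ : Ω →+* Ω) = V := by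
    rw [Subring.map_map]
    refine Subring.ext fun z => ⟨?_, fun hz => ⟨z, hz, σ.apply_symm_apply z⟩⟩
    rintro ⟨z, hz, rfl⟩
    exact (σ.apply_symm_apply z).symm ▸ hz
  have h1 := (hD _ hV0).map (σ : Ω →+* Ω)
  obtain ⟨β, hβ, e1, _⟩ := H.act_z hm f f' hσ hθ'
  rw [hVe, map_pow, RingHom.coe_coe, e1, mul_pow, hβ, one_mul] at h1
  obtain ⟨n, hn⟩ := H.ord f hV hu (div_ne_zero (H.z_ne _) (H.z_ne _))
  have h2 := (hD V hV).mul hn.cube
  rw [div_pow, mul_div_cancel₀ _ (pow_ne_zero _ (H.z_ne _))] at h2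
  have h3 := h1.unique h2
  have h4 : D.1.mapDomain (Subring.map (σ : Ω →+* Ω)) V =
      D.1 (V.map ((σ⁻¹ : Ω ≃ₐ[E] Ω) : Ω →+* Ω)) := by
    conv_lhs => rw [← hVe]
    exact Finsupp.mapDomain_apply hinj _ _
  have h5 : D.1.mapDomain (Subring.map (σ : Ω →+* Ω)) V - D.1 V = n := by omega
  change IsOrd V _ (D.1.mapDomain (Subring.map (σ : Ω →+* Ω)) V - D.1 V)
  exact h5 ▸ hn

theorem Hyp.not_cusp (H : Hyp T j p c) (hm : Fintype.card k = 3 * m + 1) (f : Fr (phiT k Ω T j) p c)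
    {D : WDiv (primeDiv k T j c)} (hD : ∀ V ∈ primeDiv k T j c, IsOrd V (f.z m ^ 3) (3 * D.1 V)) :
    (prin (funField k T j c).toSubfield (primeDiv k T j c)).mkQ D ∉ AddSubgroup.closure (cuspClasses k T j c) := by
  intro h
  obtain ⟨D', e, hD'⟩ : ∃ D' : WDiv (primeDiv k T j c), (prin (funField k T j c).toSubfield (primeDiv k T j c)).mkQ D' = (prin (funField k T j c).toSubfield (primeDiv k T j c)).mkQ D ∧
      ∀ V, V ∉ cusps k T j c → D'.1 V = 0 := by
    generalize (prin (funField k T j c).toSubfield (primeDiv k T j c)).mkQ D = x at h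
    induction h using AddSubgroup.closure_induction with
    | mem x h =>
      obtain ⟨V, hV, D, e, rfl⟩ := h
      exact ⟨D, rfl, fun V' hV' => e ▸ Finsupp.single_eq_of_ne fun e => hV' (e ▸ hV)⟩
    | zero => exact ⟨0, rfl, fun _ _ => rfl⟩
    | add x y _ _ h h' =>
      obtain ⟨D, rfl, h⟩ := h
      obtain ⟨D', rfl, h'⟩ := h'
      exact ⟨D + D', rfl, fun V hV => by simp [h V hV, h' V hV]⟩
    | neg x _ h =>
      obtain ⟨D, rfl, h⟩ := h
      exact ⟨-D, rfl, fun V hV => by simp [h V hV]⟩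
  obtain ⟨u, hu, h0, hord⟩ := H.of_prin f ((Submodule.Quotient.eq _).1 e.symm)
  have hN := (H.chart f 2).1
  have hε : f.z m ^ 3 / u ^ 3 ∈ funField k T j c := div_mem (H.h_mem hm f) (pow_mem hu 3)
  have hun : ∀ (P : Ideal (MP_7c5a52_nt.chart k T j c 2)) (V : Subring Ω), P.IsPrime →
      P.height = 1 → IsLoc _ P V → Un V (f.z m ^ 3 / u ^ 3) := fun P V hP h1 hV => by
    have hV1 : V ∈ primeDiv k T j c := ⟨2, P, hP, h1, hV⟩
    have := H.dvr f hV1
    have h2 := hord V hV1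
    have h3 : (D - D').1 V = D.1 V := by
      simp [hD' V fun h => h.2 (hV.le hP)]
    rw [h3] at h2
    have := (hD V hV1).mul h2.cube.inv
    rwa [add_neg_cancel, isOrd_zero_iff, ← div_eq_mul_inv] at this
  have hv0 : f.v 0 ∈ IntermediateField.adjoin (Fsep F Ω) (Set.range f.v) :=
    IntermediateField.subset_adjoin _ _ ⟨0, rfl⟩
  have hw : f.z m / u ∈ IntermediateField.adjoin (Fsep F Ω) (Set.range f.v) :=
    div_mem (pow_mem hv0 _) (H.le f hu)
  have key : ∀ w ∈ IntermediateField.adjoin (Fsep F Ω) (Set.range f.v),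
      w ^ 3 ∈ MP_7c5a52_nt.chart k T j c 2 → w ∈ locO (Fsep F Ω) f.v := fun w hw h =>
    locO_int (H.indep f) hw (IsIntegral.of_pow (n := 3) (by decide)
      (isIntegral_algebraMap (x := (⟨_, H.le_locO f h⟩ : locO (Fsep F Ω) f.v))))
  have hUn : Un (locO (Fsep F Ω) f.v) (f.z m / u) :=
    ⟨key _ hw (by rw [div_pow]; exact hN.hartogs hε fun P V a b d => (hun P V a b d).1),
      key _ (inv_mem hw) (by
        rw [inv_pow, div_pow]; exact hN.hartogs (inv_mem hε) fun P V a b d => (hun P V a b d).2.1),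
      div_ne_zero (H.z_ne f) h0⟩
  have hq : 1 < Fintype.card k := Fintype.one_lt_card
  obtain ⟨a, ha0, ha⟩ := exists_pow_ne H.irr H.deg f.root
    (m := 3 * m * (3 * m ^ 2 + 3 * m + 1)) (by have : 0 < m := by omega
                                               positivity) (by
      have : 0 < m := by omega
      rw [hm, Nat.lt_sub_iff_add_lt]
      nlinarith [pow_pos this 2, pow_pos this 3])
  have hna : ¬ p ∣ a := by
    rintro ⟨b, rfl⟩
    exact ha0 (by rw [map_mul, f.root, zero_mul])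
  have H' : Hyp T j p (aeval (phiT k Ω T j) a c) := ⟨H.irr, H.deg, H.lev.mul H.irr hna⟩
  obtain ⟨σ, hK, hv⟩ := H.sigma H' f (f.mul a) AlgEquiv.refl rfl
  obtain ⟨b, hb, e⟩ := H.scal H' f (f.mul a) σ (hK ⟨_, root_mem H.irr f.root⟩) hv
  rw [← Module.End.mul_apply, ← map_mul] at e
  have hσ := gal_of H.lev H.irr (fun h => (H.irr.prime.dvd_or_dvd h).elim
    (not_dvd_C H.irr hb) hna) e
  have hα : ∀ f : Fr (phiT k Ω T j) p c, aeval f.θ0 a ∈ Fsep F Ω := fun f =>
    aeval_mem (root_mem H.irr f.root) a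
  let l : Fin 2 → Fsep F Ω := ![⟨_, div_mem (hα f.rot) (hα f)⟩, ⟨_, div_mem (hα f.rot.rot) (hα f)⟩]
  have hl : ∀ i, σ (f.v i) = algebraMap (Fsep F Ω) Ω (l i) * f.v i := fun i => by
    rw [hv]
    fin_cases i <;> exact (div_mul_div_comm _ _ _ _).symm
  have := locO_eigen (H.indep f) (σ : Ω →+* Ω) l (l 0 ^ (3 * m ^ 2 + 3 * m + 1)) hK hl hUn (by
    have h1 : σ (f.x1 / f.x0) = _ := hl 0
    rw [RingHom.coe_coe, map_div₀, mem_funField.1 hu σ hσ fun y hy => hK ⟨y, hy⟩, Fr.z, map_pow,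
      h1, mul_pow, map_pow, mul_div_assoc]
    rfl)
  have h2 : (aeval f.θ1 a / aeval f.θ0 a) ^ (3 * m ^ 2 + 3 * m + 1) = 1 :=
    congrArg Subtype.val this
  rw [f.h1, ← aeval_q, hm, pow_succ (aeval f.θ0 a), mul_div_cancel_right₀ _ ha0, ← pow_mul] at h2
  exact ha h2

theorem main (h3 : 3 ∣ Fintype.card k - 1) (hp : Irreducible p) (hd : p.natDegree = 3)
    (hc : IsLevel k T j (Ideal.span {p}) c) :
    ∃ x : Cl k T j c, IsOfFinAddOrder x ∧ IsRational k T j x ∧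
      x ∉ AddSubgroup.closure (cuspClasses k T j c) ∧ x ∉ cuspGroup k T j c := by
  have H : Hyp T j p c := ⟨hp, hd, hc⟩
  have := IsSepClosure.sep_closed E (K := Ω)
  obtain ⟨m, hm⟩ := h3
  have hm : Fintype.card k = 3 * m + 1 := by have := Fintype.card_pos (α := k); omega
  obtain ⟨θ, hθ⟩ := IsSepClosed.exists_aeval_eq_zero (K := Ω) p (degree_ne_of_natDegree_ne (n := 0)
    (by omega)) (PerfectField.separable_of_irreducible hp)
  obtain ⟨f⟩ := exists_fr hp hd ((hc.iff p).2 dvd_rfl) hθ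
  obtain ⟨D, hD⟩ := H.exists_div f (H.h_mem hm f) (pow_ne_zero _ (H.z_ne f))
    fun V hV => H.three hm f hV
  have hn := H.not_cusp hm f hD
  refine ⟨_, isOfFinAddOrder_iff_zsmul_eq_zero.2 ⟨3, by decide, ?_⟩, H.rational hm f hD, hn,
    fun h => hn ((AddSubgroup.closure_le _).2 ?_ h)⟩
  · rw [← map_zsmul]
    exact (Submodule.Quotient.mk_eq_zero _).2 (Submodule.subset_span
      ⟨_, H.h_mem hm f, pow_ne_zero _ (H.z_ne f), hD⟩)
  · rintro _ ⟨x, hx, y, hy, rfl⟩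
    exact sub_mem (AddSubgroup.subset_closure hx) (AddSubgroup.subset_closure hy)

end Pool.Agent.P.MP_7c5a52_nt
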