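import Pool.Agent.P.MP_7c5a52_nt.Defs

/-! Orders of vanishing, height one primes of normal Noetherian subrings of a field. -/

namespace Pool.Agent.P.MP_7c5a52_nt

variable {Ω : Type} [Field Ω]

/-- `z` is a unit of `V`. -/
def Un (V : Subring Ω) (z : Ω) : Prop := z ∈ V ∧ z⁻¹ ∈ V ∧ z ≠ 0

theorem Un.mul {V : Subring Ω} {a b : Ω} (ha : Un V a) (hb : Un V b) : Un V (a * b) :=
  ⟨V.mul_mem ha.1 hb.1, by rw [mul_inv]; exact V.mul_mem ha.2.1 hb.2.1, mul_ne_zero ha.2.2 hb.2.2⟩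

theorem Un.inv {V : Subring Ω} {a : Ω} (ha : Un V a) : Un V a⁻¹ :=
  ⟨ha.2.1, by rw [inv_inv]; exact ha.1, inv_ne_zero ha.2.2⟩

theorem Un.pow {V : Subring Ω} {a : Ω} (ha : Un V a) (n : ℕ) : Un V (a ^ n) :=
  ⟨V.pow_mem ha.1 n, by rw [← inv_pow]; exact V.pow_mem ha.2.1 n, pow_ne_zero n ha.2.2⟩

theorem Un.zpow {V : Subring Ω} {a : Ω} (ha : Un V a) (n : ℤ) : Un V (a ^ n) := by
  obtain ⟨m, rfl | rfl⟩ := n.eq_nat_or_neg
  · rw [zpow_natCast]; exact ha.pow m
  · rw [zpow_neg, zpow_natCast]; exact (ha.pow m).inv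

theorem un_unit {V : Subring Ω} (u : Vˣ) : Un V ((u : V) : Ω) := by
  have h : ((u : V) : Ω) * ((u⁻¹ : Vˣ) : V) = 1 := by
    rw [← Subring.coe_mul, Units.mul_inv, Subring.coe_one]
  refine ⟨(u : V).2, ?_, left_ne_zero_of_mul_eq_one h⟩
  rw [← eq_inv_of_mul_eq_one_right h]
  exact ((u⁻¹ : Vˣ) : V).2

theorem Un.exists_unit {V : Subring Ω} {a : Ω} (ha : Un V a) : ∃ u : Vˣ, ((u : V) : Ω) = a :=
  ⟨⟨⟨a, ha.1⟩, ⟨a⁻¹, ha.2.1⟩, Subtype.ext (mul_inv_cancel₀ ha.2.2),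
    Subtype.ext (inv_mul_cancel₀ ha.2.2)⟩, rfl⟩

theorem irr_ne_zero {V : Subring Ω} {π : V} (h : Irreducible π) : (π : Ω) ≠ 0 :=
  fun e => h.ne_zero (Subtype.ext e)

theorem irr_not_un {V : Subring Ω} {π : V} (h : Irreducible π) : ¬ Un V π := fun hu => by
  obtain ⟨u, hu⟩ := hu.exists_unit
  exact h.not_isUnit (Subtype.ext hu ▸ u.isUnit)

section
variable {V : Subring Ω} [IsDiscreteValuationRing V]

theorem isOrd_iff {π : V} (h : Irreducible π) {f : Ω} {n : ℤ} :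
    IsOrd V f n ↔ Un V (f / (π : Ω) ^ n) := by
  have h0 := irr_ne_zero h
  constructor
  · rintro ⟨π', h', u, rfl⟩
    obtain ⟨w, rfl⟩ := IsDiscreteValuationRing.associated_of_irreducible V h h'
    have : ((u : V) : Ω) * ((π * w : V) : Ω) ^ n / (π : Ω) ^ n
        = ((u : V) : Ω) * ((w : V) : Ω) ^ n := by
      rw [Subring.coe_mul, mul_zpow]
      field_simp
    rw [this]
    exact (un_unit u).mul ((un_unit w).zpow n)
  · intro hu
    obtain ⟨u, hu⟩ := hu.exists_unit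
    exact ⟨π, h, u, by rw [hu, div_mul_cancel₀ _ (zpow_ne_zero n h0)]⟩

theorem isOrd_zero_iff {f : Ω} : IsOrd V f 0 ↔ Un V f := by
  obtain ⟨π, h⟩ := IsDiscreteValuationRing.exists_irreducible V
  rw [isOrd_iff h, zpow_zero, div_one]

theorem IsOrd.mul {f f' : Ω} {n n' : ℤ} (h : IsOrd V f n) (h' : IsOrd V f' n') :
    IsOrd V (f * f') (n + n') := by
  obtain ⟨π, hπ⟩ := IsDiscreteValuationRing.exists_irreducible V
  rw [isOrd_iff hπ] at *
  rw [zpow_add₀ (irr_ne_zero hπ), ← div_mul_div_comm]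
  exact h.mul h'

theorem IsOrd.inv {f : Ω} {n : ℤ} (h : IsOrd V f n) : IsOrd V f⁻¹ (-n) := by
  obtain ⟨π, hπ⟩ := IsDiscreteValuationRing.exists_irreducible V
  rw [isOrd_iff hπ] at *
  rw [zpow_neg, ← inv_div']
  exact h.inv

theorem IsOrd.zpow {f : Ω} {n : ℤ} (h : IsOrd V f n) (m : ℤ) : IsOrd V (f ^ m) (m * n) := by
  obtain ⟨π, hπ⟩ := IsDiscreteValuationRing.exists_irreducible V
  rw [isOrd_iff hπ] at *
  rw [mul_comm, zpow_mul, ← div_zpow]
  exact h.zpow m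

theorem IsOrd.cube {f : Ω} {n : ℤ} (h : IsOrd V f n) : IsOrd V (f ^ 3) (3 * n) := by
  simpa using h.zpow 3

theorem IsOrd.unique {f : Ω} {n m : ℤ} (h : IsOrd V f n) (h' : IsOrd V f m) : n = m := by
  obtain ⟨π, hπ⟩ := IsDiscreteValuationRing.exists_irreducible V
  have h0 := irr_ne_zero hπ
  rw [isOrd_iff hπ] at *
  have key : ∀ n m : ℤ, Un V (f / (π : Ω) ^ n) → Un V (f / (π : Ω) ^ m) → ¬ n < m := by
    intro n m h h' hlt
    obtain ⟨d, hd⟩ : ∃ d : ℕ, m = n + (d + 1 : ℕ) := ⟨(m - n - 1).toNat, by omega⟩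
    have hf : f ≠ 0 := fun e => h.2.2 (by rw [e, zero_div])
    have h1 := h'.mul h.inv
    refine irr_not_un hπ ⟨π.2, ?_, h0⟩
    have : (π : Ω)⁻¹ = f / (π : Ω) ^ m * (f / (π : Ω) ^ n)⁻¹ * (π : Ω) ^ d := by
      rw [hd, zpow_add₀ h0, zpow_natCast, pow_succ]
      field_simp
    rw [this]
    exact V.mul_mem h1.1 (V.pow_mem π.2 d)
  exact le_antisymm (not_lt.1 (key m n h' h)) (not_lt.1 (key n m h h'))

theorem exists_isOrd_div (a b : V) (ha : a ≠ 0) (hb : b ≠ 0) :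
    ∃ n, IsOrd V ((a : Ω) / b) n := by
  obtain ⟨π, hπ⟩ := IsDiscreteValuationRing.exists_irreducible V
  have key : ∀ a : V, a ≠ 0 → ∃ n, IsOrd V (a : Ω) n := fun a ha => by
    obtain ⟨n, u, rfl⟩ := IsDiscreteValuationRing.eq_unit_mul_pow_irreducible ha hπ
    exact ⟨n, π, hπ, u, by simp⟩
  obtain ⟨n, hn⟩ := key a ha
  obtain ⟨m, hm⟩ := key b hb
  exact ⟨n + -m, by rw [div_eq_mul_inv]; exact hn.mul hm.inv⟩

theorem IsOrd.mem_or {f : Ω} {n : ℤ} (h : IsOrd V f n) : f ∈ V ∨ f⁻¹ ∈ V := by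
  have key : ∀ (f : Ω) (n : ℕ), IsOrd V f n → f ∈ V := by
    rintro _ n ⟨π, _, u, rfl⟩
    rw [zpow_natCast]
    exact V.mul_mem (u : V).2 (V.pow_mem π.2 n)
  obtain ⟨m, rfl | rfl⟩ := n.eq_nat_or_neg
  · exact .inl (key _ _ h)
  · exact .inr (key _ m (by simpa using h.inv))

end

theorem IsOrd.map {V : Subring Ω} {f : Ω} {n : ℤ} (h : IsOrd V f n) (σ : Ω →+* Ω) :
    IsOrd (V.map σ) (σ f) n := by
  obtain ⟨π, hπ, u, rfl⟩ := h
  let e := V.equivMapOfInjective σ σ.injective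
  refine ⟨e π, (MulEquiv.irreducible_iff e).2 hπ, Units.map (e : V →* V.map σ) u, ?_⟩
  rw [map_mul, map_zpow₀]
  rfl

/-- `R` is a normal Noetherian subring with fraction field `L`. -/
structure Nrm (R : Subring Ω) (L : Subfield Ω) : Prop where
  noeth : IsNoetherianRing R
  le : ∀ z ∈ R, z ∈ L
  frac : ∀ z ∈ L, ∃ a b : R, b ≠ 0 ∧ z = (a : Ω) / b
  int : ∀ z ∈ L, IsIntegral R z → z ∈ R

/-- `V` is the localisation of `R` at `P`. -/
def IsLoc (R : Subring Ω) (P : Ideal R) (V : Subring Ω) : Prop :=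
  ∀ z, z ∈ V ↔ ∃ x y : R, y ∉ P ∧ z = (x : Ω) / y

variable {R : Subring Ω} {L : Subfield Ω}

theorem ne_zero_of_notMem {P : Ideal R} {y : R} (hy : y ∉ P) : (y : Ω) ≠ 0 :=
  fun e => hy ((Subtype.ext e : y = 0) ▸ P.zero_mem)

theorem exists_isLoc (P : Ideal R) (hP : P.IsPrime) : ∃ V, IsLoc R P V := by
  have h1 : (1 : R) ∉ P := (Ideal.ne_top_iff_one P).1 hP.ne_top
  refine ⟨{ carrier := {z | ∃ x y : R, y ∉ P ∧ z = (x : Ω) / y}
            mul_mem' := ?_, one_mem' := ⟨1, 1, h1, by simp⟩, add_mem' := ?_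
            zero_mem' := ⟨0, 1, h1, by simp⟩, neg_mem' := ?_ }, fun _ => Iff.rfl⟩
  · rintro _ _ ⟨x, y, hy, rfl⟩ ⟨x', y', hy', rfl⟩
    exact ⟨x * x', y * y', fun h => (hP.mem_or_mem h).elim hy hy', by
      simp [div_mul_div_comm]⟩
  · rintro _ _ ⟨x, y, hy, rfl⟩ ⟨x', y', hy', rfl⟩
    refine ⟨x * y' + y * x', y * y', fun h => (hP.mem_or_mem h).elim hy hy', ?_⟩
    rw [div_add_div _ _ (ne_zero_of_notMem hy) (ne_zero_of_notMem hy')]
    simp
  · rintro _ ⟨x, y, hy, rfl⟩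
    exact ⟨-x, y, hy, by simp [neg_div]⟩

theorem IsLoc.le {P : Ideal R} (hP : P.IsPrime) {V : Subring Ω} (h : IsLoc R P V) : R ≤ V :=
  fun z hz => (h z).2 ⟨⟨z, hz⟩, 1, (Ideal.ne_top_iff_one P).1 hP.ne_top, by simp⟩

theorem IsLoc.un {P : Ideal R} (hP : P.IsPrime) {V : Subring Ω} (h : IsLoc R P V) {y : R}
    (hy : y ∉ P) : Un V y :=
  ⟨h.le hP y.2, (h _).2 ⟨1, y, hy, by simp⟩, ne_zero_of_notMem hy⟩

theorem Nrm.closed (h : Nrm R L) : IsIntegrallyClosed R := by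
  let : Algebra R L := (R.subtype.codRestrict L.toSubring fun z => h.le z z.2).toAlgebra
  have inj : Function.Injective (algebraMap R L) := fun a b e =>
    Subtype.ext (congrArg (fun z : L => (z : Ω)) e)
  have : FaithfulSMul R L := (faithfulSMul_iff_algebraMap_injective R L).2 inj
  have : IsFractionRing R L := IsFractionRing.of_field R L fun z => by
    obtain ⟨a, b, _, e⟩ := h.frac z z.2
    exact ⟨a, b, Subtype.ext e⟩
  have : IsScalarTower R L Ω := .of_algebraMap_eq fun _ => rfl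
  rw [isIntegrallyClosed_iff L]
  intro x hx
  exact ⟨⟨x, h.int x x.2 hx.algebraMap⟩, rfl⟩

theorem Nrm.dvr (h : Nrm R L) {P : Ideal R} (hP : P.IsPrime) (h1 : P.height = 1)
    {V : Subring Ω} (hV : IsLoc R P V) : IsDiscreteValuationRing V := by
  have := h.noeth
  have := h.closed
  let : Algebra R V := (Subring.inclusion (hV.le hP)).toAlgebra
  have : IsLocalization.AtPrime V P :=
    { map_units := fun y => by
        obtain ⟨u, hu⟩ := (hV.un hP y.2).exists_unit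
        exact (Subtype.ext hu : (u : V) = algebraMap R V y) ▸ u.isUnit
      surj := fun z => by
        obtain ⟨x, y, hy, e⟩ := (hV z).1 z.2
        refine ⟨(x, ⟨y, hy⟩), Subtype.ext ?_⟩
        change (z : Ω) * y = x
        rw [e, div_mul_cancel₀ _ (ne_zero_of_notMem hy)]
      exists_of_eq := fun {x y} e => ⟨1, by
        rw [(Subtype.ext (congrArg (fun z : V => (z : Ω)) e) : x = y)]⟩ }
  have hle : P.primeCompl ≤ nonZeroDivisors R := P.primeCompl_le_nonZeroDivisors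
  have := IsLocalization.AtPrime.isLocalRing V P
  have := IsLocalization.isNoetherianRing P.primeCompl V h.noeth
  have h2 : IsIntegrallyClosed V := isIntegrallyClosed_of_isLocalization V _ hle
  have hd : ringKrullDim V = 1 := by
    rw [IsLocalization.AtPrime.ringKrullDim_eq_height P V, h1]
    rfl
  have h3 : Ring.KrullDimLE 1 V := Ring.krullDimLE_iff.2 hd.le
  have : IsPrincipalIdealRing V :=
    ((tfae_of_isNoetherianRing_of_isLocalRing_of_isDomain V).out 3 0).1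
      (And.intro h2 fun (Q : Ideal V) (hQ : Q ≠ ⊥) (hQ' : Q.IsPrime) => IsLocalRing.eq_maximalIdeal
        (Ring.krullDimLE_one_iff_of_noZeroDivisors.1 h3 Q hQ hQ'))
  refine { not_a_field' := fun e => ?_ }
  have := ringKrullDim_eq_zero_of_isField (IsLocalRing.isField_iff_maximalIdeal_eq.2 e)
  rw [hd] at this
  exact absurd this (by decide)

theorem Nrm.exists_ord (h : Nrm R L) {P : Ideal R} (hP : P.IsPrime) (h1 : P.height = 1)
    {V : Subring Ω} (hV : IsLoc R P V) {f : Ω} (hf : f ∈ L) (h0 : f ≠ 0) : ∃ n, IsOrd V f n := by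
  have := h.dvr hP h1 hV
  obtain ⟨a, b, hb, rfl⟩ := h.frac f hf
  refine exists_isOrd_div (V := V) ⟨a, hV.le hP a.2⟩ ⟨b, hV.le hP b.2⟩ (fun e => h0 ?_)
    fun e => hb (Subtype.ext (congrArg (fun z : V => (z : Ω)) e))
  have e' : (a : Ω) = 0 := congrArg (fun z : V => (z : Ω)) e
  rw [e', zero_div]

theorem Nrm.finite_mem (h : Nrm R L) {a : R} (ha : a ≠ 0) :
    {P : Ideal R | P.IsPrime ∧ P.height = 1 ∧ a ∈ P}.Finite := by
  have := h.noeth
  refine (Ideal.finite_minimalPrimes_of_isNoetherianRing R (Ideal.span {a})).subset ?_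
  rintro P ⟨hP, h1, haP⟩
  refine Ideal.mem_minimalPrimes_of_height_le ((Ideal.span_singleton_le_iff_mem _).2 haP) ?_
  rw [h1]
  exact Order.one_le_iff_ne_zero.2 (Ideal.height_eq_zero_iff_eq_bot.not.2
    (Ideal.span_singleton_eq_bot.not.2 ha))

theorem Nrm.finite (h : Nrm R L) {f : Ω} (hf : f ∈ L) (h0 : f ≠ 0) :
    {V : Subring Ω | (∃ P : Ideal R, P.IsPrime ∧ P.height = 1 ∧ IsLoc R P V) ∧
      ¬ Un V f}.Finite := by
  obtain ⟨a, b, hb, rfl⟩ := h.frac f hf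
  have ha : a ≠ 0 := fun e => h0 (by simp [e])
  have hfin := (h.finite_mem ha).union (h.finite_mem hb)
  have hsub : ∀ P : Ideal R, {V : Subring Ω | IsLoc R P V}.Subsingleton := fun P V hV V' hV' =>
    Subring.ext fun z => (hV z).trans (hV' z).symm
  refine (hfin.biUnion fun P _ => (hsub P).finite).subset ?_
  rintro V ⟨⟨P, hP, h1, hV⟩, hn⟩
  refine Set.mem_biUnion (x := P) ?_ hV
  by_contra hc
  simp only [Set.mem_union, Set.mem_setOf_eq, hP, h1, true_and, not_or] at hc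
  exact hn (by rw [div_eq_mul_inv]; exact (hV.un hP hc.1).mul (hV.un hP hc.2).inv)

theorem Nrm.height_one (h : Nrm R L) {Q : Ideal R} (hQ : Q.IsPrime) (h0 : Q ≠ ⊥) {y : Ω}
    (hyL : y ∈ L) (hy : ∀ r : R, r ∈ Q ↔ (r : Ω) * y ∈ R) : Q.height = 1 := by
  have := h.noeth
  have h1 : ∃ t ∈ Q, ∃ c : R, c ∉ Q ∧ (t : Ω) * y = c := by
    by_contra! hc
    have h2 : IsIntegral R y := by
      refine isIntegral_of_smul_mem_submodule (Submodule.map (Algebra.linearMap R Ω) Q) ?_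
        (Submodule.FG.map _ (IsNoetherian.noetherian _)) y ?_
      · obtain ⟨a, ha, ha0⟩ := (Submodule.ne_bot_iff _).1 h0
        exact (Submodule.ne_bot_iff _).2 ⟨_, ⟨a, ha, rfl⟩, fun e => ha0 (Subtype.ext e)⟩
      · rintro _ ⟨m, hm, rfl⟩
        refine ⟨⟨_, (hy m).1 hm⟩, by_contra fun h3 => hc m hm _ h3 rfl, ?_⟩
        exact mul_comm (m : Ω) y
    exact hQ.ne_top ((Ideal.eq_top_iff_one _).2 ((hy 1).2 (by simpa using h.int y hyL h2)))
  obtain ⟨t, ht, c, hc, e⟩ := h1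
  have h2 : Q ∈ (Ideal.span {t}).minimalPrimes := by
    refine ⟨⟨hQ, (Ideal.span_singleton_le_iff_mem _).2 ht⟩, fun p hp hle m hm => ?_⟩
    have h3 : c * m = ⟨_, (hy m).1 hm⟩ * t := Subtype.ext (by
      simp only [Subring.coe_mul, ← e]
      ring)
    have h4 : c * m ∈ p := h3 ▸ p.mul_mem_left _ (hp.2 (Ideal.mem_span_singleton_self t))
    exact (hp.1.mem_or_mem h4).resolve_left fun h5 => hc (hle h5)
  exact le_antisymm (Ideal.height_le_one_of_isPrincipal_of_mem_minimalPrimes _ _ h2)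
    (Order.one_le_iff_ne_zero.2 (Ideal.height_eq_zero_iff_eq_bot.not.2 h0))

/-- Algebraic Hartogs lemma. -/
theorem Nrm.hartogs (h : Nrm R L) {f : Ω} (hf : f ∈ L)
    (H : ∀ (P : Ideal R) (V : Subring Ω), P.IsPrime → P.height = 1 → IsLoc R P V → f ∈ V) :
    f ∈ R := by
  have := h.noeth
  by_contra hn
  let I : R → Ideal R := fun a =>
    { carrier := {r | (r : Ω) * (a * f) ∈ R}
      add_mem' := fun {r s} hr hs => by
        have := R.add_mem hr hs
        simpa [add_mul] using this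
      zero_mem' := by simp
      smul_mem' := fun c r hr => by
        have := R.mul_mem c.2 hr
        simpa [mul_assoc] using this }
  obtain ⟨_, ⟨a, ha, rfl⟩, hmax⟩ := set_has_maximal_iff_noetherian.2 (inferInstance :
    IsNoetherian R R) (I '' {a | (a : Ω) * f ∉ R}) ⟨_, 1, by simpa using hn, rfl⟩
  have hP : (I a).IsPrime := by
    refine ⟨fun e => ha ?_, fun {x y} hxy => or_iff_not_imp_right.2 fun hy => ?_⟩
    · have : (1 : R) ∈ I a := e ▸ Submodule.mem_top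
      simpa [I] using this
    · have hle : I a ≤ I (y * a) := fun r hr => by
        have := R.mul_mem y.2 hr
        change (r : Ω) * (((y : Ω) * a) * f) ∈ R
        rwa [show (r : Ω) * (((y : Ω) * a) * f) = y * (r * (a * f)) by ring]
      have heq : I a = I (y * a) := by
        by_contra hne
        refine hmax _ ⟨y * a, ?_, rfl⟩ (lt_of_le_of_ne hle hne)
        change ((y : Ω) * a) * f ∉ R
        rwa [mul_assoc]
      rw [heq]
      change (x : Ω) * (((y : Ω) * a) * f) ∈ R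
      rwa [show (x : Ω) * (((y : Ω) * a) * f) = (x * y) * (a * f) by ring]
  obtain ⟨u, w, hw, e⟩ := h.frac f hf
  have hw0 : (w : Ω) ≠ 0 := fun e => hw (Subtype.ext e)
  have h1 : (I a).height = 1 := by
    refine h.height_one hP ((Submodule.ne_bot_iff _).2 ⟨w, ?_, hw⟩)
      (L.mul_mem (h.le _ a.2) hf) fun _ => Iff.rfl
    change (w : Ω) * (a * f) ∈ R
    rw [show (w : Ω) * (a * f) = a * u by rw [e]; field_simp]
    exact R.mul_mem a.2 u.2
  obtain ⟨V, hV⟩ := exists_isLoc _ hP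
  obtain ⟨x, y, hy, e'⟩ := (hV f).1 (H _ V hP h1 hV)
  refine hy ?_
  change (y : Ω) * (a * f) ∈ R
  rw [show (y : Ω) * (a * f) = a * x by
    have := ne_zero_of_notMem hy
    rw [e']; field_simp]
  exact R.mul_mem a.2 x.2

/-- A valuation ring of the big field with centre `P`. -/
theorem exists_center (P : Ideal R) (hP : P.IsPrime) :
    ∃ W : ValuationSubring Ω, (∀ a : R, (a : Ω) ∈ W) ∧
      ∀ a : R, W.valuation (a : Ω) < 1 ↔ a ∈ P := by
  let S := Localization.AtPrime P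
  have hu : ∀ b : P.primeCompl, IsUnit (R.subtype b) := fun b =>
    isUnit_iff_ne_zero.2 (ne_zero_of_notMem b.2)
  let f : S →+* Ω := IsLocalization.lift hu
  have hf : ∀ a : R, f (algebraMap R S a) = a := IsLocalization.lift_eq hu
  obtain ⟨W, hW, hl⟩ := IsLocalRing.exists_factor_valuationRing f
  refine ⟨W, fun a => hf a ▸ hW _, fun a => ?_⟩
  rw [← ValuationSubring.mem_nonunits_iff, ← hf,
    ← IsLocalization.AtPrime.to_map_mem_maximal_iff S P a]
  refine (ValuationSubring.coe_mem_nonunits_iff (a := ⟨_, hW _⟩)).trans ?_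
  rw [IsLocalRing.mem_maximalIdeal, IsLocalRing.mem_maximalIdeal, mem_nonunits_iff,
    mem_nonunits_iff]
  exact (isUnit_map_iff (f.codRestrict W.toSubring hW) _).not

theorem Nrm.un_of_val (h : Nrm R L) {P : Ideal R} (hP : P.IsPrime) (h1 : P.height = 1)
    {V : Subring Ω} (hV : IsLoc R P V) {W : ValuationSubring Ω} (hW : ∀ a : R, (a : Ω) ∈ W)
    (hc : ∀ a : R, W.valuation (a : Ω) < 1 ↔ a ∈ P) {f : Ω} (hf : f ∈ L)
    (hv : W.valuation f = 1) : Un V f := by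
  have := h.dvr hP h1 hV
  have key : ∀ f : Ω, W.valuation f = 1 → f ∈ V → Un V f := fun f hv hfV => by
    obtain ⟨x, y, hy, rfl⟩ := (hV f).1 hfV
    have hy1 : W.valuation (y : Ω) = 1 :=
      le_antisymm ((W.valuation_le_one_iff _).2 (hW y)) (not_lt.1 ((hc y).not.2 hy))
    rw [map_div₀, hy1, div_one] at hv
    rw [div_eq_mul_inv]
    exact (hV.un hP ((hc x).not.1 (by rw [hv]; exact lt_irrefl _))).mul (hV.un hP hy).inv
  have h0 : f ≠ 0 := fun e => by simp [e] at hv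
  obtain ⟨n, hn⟩ := h.exists_ord hP h1 hV hf h0
  rcases hn.mem_or with h2 | h2
  · exact key f hv h2
  · simpa using (key f⁻¹ (by rw [map_inv₀, hv, inv_one]) h2).inv

end Pool.Agent.P.MP_7c5a52_nt
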