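import Pool.Agent.P.MP_7c5a52_nt.Gal

/-! The generic rank three module. -/

open Polynomial

set_option linter.unusedSectionVars false

namespace Pool.Agent.P.MP_7c5a52_nt

/-- `E` is the rational function field on `j`. -/
class GenJ (F : Type) {E : Type} [Field F] [Field E] [Algebra F E] (j : Fin 2 → E) : Prop where
  indep : AlgebraicIndependent F j
  gen : IntermediateField.adjoin F (Set.range j) = ⊤

/-- `T` is transcendental. -/
class GenT (k : Type) {F : Type} [Field k] [Field F] [Algebra k F] (T : F) : Prop where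
  tr : Transcendental k T

variable {k F E Ω : Type} [Field k] [Fintype k] [Field F] [Field E] [Field Ω] [Algebra k Ω]
  [Algebra F Ω] [Algebra E Ω] {T : F} {j : Fin 2 → E} [Algebra k F] [Algebra F E]
  [IsScalarTower F E Ω] [IsScalarTower k F Ω] [GenJ F j] [GenT k T]

variable (Ω T) in
/-- The element `T`. -/
noncomputable abbrev TT : Ω := algebraMap F Ω T

variable (Ω j) in
/-- The coordinates `j_2, j_3`. -/
noncomputable def jj : Fin 2 → Ω := fun i => g Ω j i.succ

theorem frob_pow (n : ℕ) (z : Ω) :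
    ((FiniteField.frobeniusAlgHom k Ω).toLinearMap ^ n) z = z ^ Fintype.card k ^ n := by
  induction n with
  | zero => simp
  | succ n ih => rw [pow_succ', Module.End.mul_apply, ih, pow_succ, pow_mul]; rfl

theorem phiT_apply (z : Ω) : phiT k Ω T j z = TT Ω T * z + g Ω j 0 * z ^ Fintype.card k +
    g Ω j 1 * z ^ Fintype.card k ^ 2 + g Ω j 2 * z ^ Fintype.card k ^ 3 := by
  simp [phiT, Fin.sum_univ_three, frob_pow, add_assoc]

theorem g_zero : g Ω j 0 = 1 := rfl

theorem g_mem (l : Fin 3) : ∃ e : E, algebraMap _ Ω e = g Ω j l :=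
  Fin.cases ⟨1, map_one _⟩ (fun _ => ⟨_, rfl⟩) l

theorem fix_g (σ : Ω ≃ₐ[E] Ω) (l : Fin 3) : σ (g Ω j l) = g Ω j l := by
  obtain ⟨e, he⟩ := g_mem (Ω := Ω) (j := j) l
  rw [← he, σ.commutes]

theorem aeval_jj (a : MvPolynomial (Fin 2) F) : MvPolynomial.aeval (jj Ω j) a =
    algebraMap E Ω (MvPolynomial.aeval j a) :=
  MvPolynomial.aeval_algebraMap_apply Ω j a

theorem jj_indep : AlgebraicIndependent (Fsep F Ω) (jj Ω j) := by
  have : AlgebraicIndependent F (jj Ω j) := fun a b e => by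
    rw [aeval_jj, aeval_jj] at e
    exact GenJ.indep (j := j) ((algebraMap E Ω).injective e)
  exact this.extendScalars _

variable (F) in
include F in
theorem g_ne (l : Fin 3) : g Ω j l ≠ 0 :=
  Fin.cases one_ne_zero (fun i => (jj_indep (F := F) (Ω := Ω)).ne_zero i) l

theorem E_mem (e : E) :
    algebraMap _ Ω e ∈ IntermediateField.adjoin F (Set.range (jj Ω j)) := by
  obtain ⟨a, b, rfl⟩ := (IntermediateField.mem_adjoin_range_iff F j e).1
    (GenJ.gen (F := F) (j := j) ▸ IntermediateField.mem_top)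
  exact (IntermediateField.mem_adjoin_range_iff _ _ _).2 ⟨a, b, by
    rw [map_div₀, aeval_jj, aeval_jj]⟩

theorem E_mem' (e : E) :
    algebraMap _ Ω e ∈ IntermediateField.adjoin (Fsep F Ω) (Set.range (jj Ω j)) :=
  (IntermediateField.adjoin_le_iff (T := (IntermediateField.adjoin (Fsep F Ω)
    (Set.range (jj Ω j))).restrictScalars F)).2
    (IntermediateField.subset_adjoin (Fsep F Ω) _) (E_mem e)

theorem fix_F (σ : Ω ≃ₐ[E] Ω) (a : F) :
    σ (algebraMap _ Ω a) = algebraMap _ Ω a := by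
  rw [IsScalarTower.algebraMap_apply F E Ω, σ.commutes]

theorem map_Fsep (σ : Ω ≃ₐ[E] Ω) {y : Ω} (hy : y ∈ Fsep F Ω) : σ y ∈ Fsep F Ω :=
  IsSeparable.map (σ.toAlgHom.restrictScalars F) σ.injective hy

variable (F) in
include F in
theorem fix_k (σ : Ω ≃ₐ[E] Ω) (a : k) : σ (algebraMap _ Ω a) = algebraMap _ Ω a := by
  rw [IsScalarTower.algebraMap_apply k F Ω, fix_F]

theorem comm_phi (σ : Ω ≃ₐ[E] Ω) (a : k[X]) (z : Ω) :
    σ (aeval (phiT k Ω T j) a z) = aeval (phiT k Ω T j) a (σ z) := by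
  induction a using Polynomial.induction_on generalizing z with
  | C a => simp [Algebra.smul_def, fix_k F]
  | add a b ha hb => simp [ha, hb]
  | monomial n a ih =>
    rw [pow_succ, ← mul_assoc, map_mul, aeval_X, Module.End.mul_apply, Module.End.mul_apply, ih]
    simp only [phiT_apply, map_add, map_mul, map_pow, fix_F, fix_g]

theorem aeval_TT {a : k[X]} (ha : a ≠ 0) : aeval (TT Ω T) a ≠ 0 := by
  rw [TT, aeval_algebraMap_apply, _root_.map_ne_zero]
  exact fun e => GenT.tr (k := k) (T := T) ⟨a, ha, e⟩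

theorem root_mem {p : k[X]} (hp : Irreducible p) {θ : Ω} (h : aeval θ p = 0) : θ ∈ Fsep F Ω :=
  IsSeparable.tower_top F (F := k)
    ((PerfectField.separable_of_irreducible hp).of_dvd (minpoly.dvd k θ h))

theorem aeval_mem {θ : Ω} (h : θ ∈ Fsep F Ω) (a : k[X]) : aeval θ a ∈ Fsep F Ω := by
  rw [← aeval_map_algebraMap F]
  exact Algebra.adjoin_le (S := (Fsep F Ω).toSubalgebra) (Set.singleton_subset_iff.2 h)
    (aeval_mem_adjoin_singleton _ _)

variable {p : k[X]} {c : Ω}

theorem IsLevel.iff (h : IsLevel k T j (Ideal.span {p}) c) (a : k[X]) :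
    aeval (phiT k Ω T j) a c = 0 ↔ p ∣ a := (h a).trans Ideal.mem_span_singleton

theorem IsLevel.mul (h : IsLevel k T j (Ideal.span {p}) c) (hp : Irreducible p) {b : k[X]}
    (hb : ¬ p ∣ b) : IsLevel k T j (Ideal.span {p}) (aeval (phiT k Ω T j) b c) := fun a => by
  rw [← Module.End.mul_apply, ← map_mul, h.iff, Ideal.mem_span_singleton, hp.prime.dvd_mul,
    or_iff_left hb]

theorem IsLevel.ne (h : IsLevel k T j (Ideal.span {p}) c) (hp : Irreducible p) : c ≠ 0 :=
  fun e => hp.not_dvd_one ((h.iff 1).1 (by simp [e]))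

theorem mem_gal {σ : Ω ≃ₐ[E] Ω} : σ ∈ gal k T j c ↔
    σ '' (Set.range fun a : k[X] => aeval (phiT k Ω T j) a c) =
      Set.range fun a : k[X] => aeval (phiT k Ω T j) a c := Iff.rfl

theorem gal_exists {σ : Ω ≃ₐ[E] Ω} (h : σ ∈ gal k T j c) :
    ∃ a : k[X], σ c = aeval (phiT k Ω T j) a c := by
  obtain ⟨a, ha⟩ := (mem_gal.1 h).le ⟨c, ⟨1, by simp⟩, rfl⟩
  exact ⟨a, ha.symm⟩

theorem gal_of (h : IsLevel k T j (Ideal.span {p}) c) (hp : Irreducible p) {σ : Ω ≃ₐ[E] Ω}
    {b : k[X]} (hb : ¬ p ∣ b) (e : σ c = aeval (phiT k Ω T j) b c) : σ ∈ gal k T j c := by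
  refine mem_gal.2 (Set.Subset.antisymm ?_ ?_)
  · rintro _ ⟨_, ⟨a, rfl⟩, rfl⟩
    exact ⟨a * b, by simp only [comm_phi, e, map_mul, Module.End.mul_apply]⟩
  · rintro _ ⟨a, rfl⟩
    obtain ⟨u, w, huw⟩ := (hp.coprime_iff_not_dvd).2 hb
    refine ⟨_, ⟨a * w, rfl⟩, ?_⟩
    have := congrArg (fun x => aeval (phiT k Ω T j) (a * x) c) huw
    simp only [mul_add, map_add, LinearMap.add_apply, mul_one,
      (h.iff (a * (u * p))).2 ⟨a * u, by ring⟩, zero_add] at this
    simp only [comm_phi, e, ← this, map_mul, Module.End.mul_apply]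

theorem mem_funField {z : Ω} : z ∈ funField k T j c ↔
    ∀ σ ∈ gal k T j c, (∀ y ∈ Fsep F Ω, σ y = y) → σ z = z := by
  rw [funField, IntermediateField.mem_fixedField_iff]
  exact ⟨fun h σ h1 h2 => h σ ⟨h1, (mem_fixingSubgroup_iff _).2 h2⟩,
    fun h σ h1 => h σ h1.1 ((mem_fixingSubgroup_iff _).1 h1.2)⟩

theorem map_funField {σ : Ω ≃ₐ[E] Ω} (hσ : σ ∈ gal k T j c) {z : Ω} (hz : z ∈ funField k T j c) :
    σ z ∈ funField k T j c := by
  rw [mem_funField] at *
  intro τ hτ hfix
  have := hz (σ⁻¹ * τ * σ) (mul_mem (mul_mem (inv_mem hσ) hτ) hσ) fun y hy => by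
    simp [hfix _ (map_Fsep σ hy)]
  simpa using congrArg σ this

/-- Existence of a point of exact order `p`. -/
theorem exists_level [IsSepClosed Ω] (hp : Irreducible p) :
    ∃ c : Ω, IsLevel k T j (Ideal.span {p}) c := by
  set q := Fintype.card k with hq
  have hq1 : 1 < q := Fintype.one_lt_card
  have hq0 : (q : Ω) = 0 := by
    rw [← map_natCast (algebraMap k Ω), hq, FiniteField.cast_card_eq_zero, map_zero]
  let Φ : Polynomial Ω := C (TT Ω T) * X + C (g Ω j 0) * X ^ q + C (g Ω j 1) * X ^ q ^ 2 +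
    C (g Ω j 2) * X ^ q ^ 3
  have hΦ : ∀ z, Φ.eval z = phiT k Ω T j z := fun z => by simp [Φ, phiT_apply, hq]
  have hΦ' : derivative Φ = C (TT Ω T) := by simp [Φ, derivative_X_pow, hq0]
  have h23 : q ^ 2 < q ^ 3 := Nat.pow_lt_pow_right hq1 (by decide)
  have h12 : q < q ^ 2 := by nlinarith
  have hd : Φ.natDegree = q ^ 3 := by
    rw [natDegree_add_eq_right_of_natDegree_lt, natDegree_C_mul_X_pow _ _ (g_ne F 2)]
    rw [natDegree_C_mul_X_pow _ _ (g_ne F 2)]
    refine lt_of_le_of_lt (b := q ^ 2) ?_ h23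
    refine (natDegree_add_le _ _).trans (max_le ((natDegree_add_le _ _).trans (max_le ?_ ?_)) ?_)
    · exact ((natDegree_C_mul_le _ _).trans natDegree_X_le).trans (by omega)
    all_goals exact (natDegree_C_mul_X_pow_le _ _).trans (by omega)
  have key : ∀ n, ∀ a : k[X], a.natDegree = n → ∃ Ψ : Polynomial Ω,
      (∀ z, Ψ.eval z = aeval (phiT k Ω T j) a z) ∧ derivative Ψ = C (aeval (TT Ω T) a) ∧
      (a ≠ 0 → n < Ψ.natDegree) := by
    intro n
    induction n with
    | zero =>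
      intro a ha
      rw [eq_C_of_natDegree_eq_zero ha]
      refine ⟨C (algebraMap k Ω (a.coeff 0)) * X, fun z => by simp [Algebra.smul_def], by simp,
        fun h => ?_⟩
      rw [natDegree_C_mul_X _ ((_root_.map_ne_zero _).2 (C_ne_zero.1 h))]
      exact Nat.one_pos
    | succ n ih =>
      intro a ha
      have h1 : a.divX.natDegree = n := by rw [natDegree_divX_eq_natDegree_tsub_one, ha]; rfl
      have h2 : a.divX ≠ 0 := fun e => by
        rw [divX_eq_zero_iff.1 e, natDegree_C] at ha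
        omega
      obtain ⟨Ψ, e1, e2, e3⟩ := ih _ h1
      have e3 := e3 h2
      refine ⟨Φ.comp Ψ + C (algebraMap k Ω (a.coeff 0)) * X, fun z => ?_, ?_, fun _ => ?_⟩
      · conv_rhs => rw [← a.X_mul_divX_add]
        simp only [eval_add, eval_mul, eval_C, eval_X, eval_comp, hΦ, e1, map_add, map_mul, aeval_X,
          aeval_C, LinearMap.add_apply, Module.End.mul_apply, Module.algebraMap_end_apply,
          Algebra.smul_def]
      · conv_rhs => rw [← a.X_mul_divX_add]
        rw [derivative_add, derivative_comp, hΦ', e2, C_comp, derivative_C_mul, derivative_X,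
          mul_one, map_add, map_mul, aeval_X, aeval_C, C_add, C_mul, mul_comm]
      · have : n + 1 < (Φ.comp Ψ).natDegree := by
          rw [natDegree_comp, hd]
          nlinarith
        rwa [natDegree_add_eq_left_of_natDegree_lt]
        exact (((natDegree_C_mul_le _ _).trans natDegree_X_le).trans (by omega)).trans_lt this
  obtain ⟨Ψ, e1, e2, e3⟩ := key _ p rfl
  have e3 := e3 hp.ne_zero
  have hpos := hp.natDegree_pos
  have h0 := aeval_TT (Ω := Ω) (T := T) hp.ne_zero
  have hsep : Ψ.Separable := by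
    rw [separable_def, e2]
    exact ⟨0, C (aeval (TT Ω T) p)⁻¹, by rw [zero_mul, zero_add, ← C_mul, inv_mul_cancel₀ h0, C_1]⟩
  have hX : Ψ = X * Ψ.divX := by
    conv_lhs => rw [← Ψ.X_mul_divX_add, coeff_zero_eq_eval_zero, e1, map_zero, map_zero, add_zero]
  obtain ⟨c, hc⟩ := IsSepClosed.exists_root Ψ.divX (fun e => by
    have := natDegree_eq_of_degree_eq_some (n := 0) e
    rw [natDegree_divX_eq_natDegree_tsub_one] at this
    omega) (hsep.of_dvd ⟨X, by rw [mul_comm]; exact hX⟩)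
  have hc0 : c ≠ 0 := fun e => h0 (by
    have := congrArg (eval 0) e2
    rw [hX] at this
    rw [e, IsRoot.def] at hc
    simpa [hc] using this.symm)
  have hpc : aeval (phiT k Ω T j) p c = 0 := by rw [← e1, hX, eval_mul, hc.eq_zero, mul_zero]
  refine ⟨c, fun a => ?_⟩
  rw [Ideal.mem_span_singleton]
  refine ⟨fun h => by_contra fun hn => hc0 ?_, ?_⟩
  · obtain ⟨u, w, huw⟩ := (hp.coprime_iff_not_dvd).2 hn
    simpa [h, hpc] using (congrArg (fun x => aeval (phiT k Ω T j) x c) huw).symm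
  · rintro ⟨b, rfl⟩
    simp [mul_comm p, hpc]

end Pool.Agent.P.MP_7c5a52_nt
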